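import Pool.Agent.T9h4.SH.Form2
import Pool.Agent.W418.Prim

/-!
Diagonal forms.
-/

set_option autoImplicit false

open MvPolynomial

namespace Pool.Agent.T9h4.SH

open Pool.Agent.W418 (dform pderiv_dform irreducible_diag)

variable {k : Type} [Field k]

theorem diag [CharZero k] [IsAlgClosed k] {n d : ℕ} (hn : 3 ≤ n) (hd : 2 ≤ d)
    (h : 2 ^ (d - 1) ≤ n) (a : Fin n → k) (ha : ∀ i, a i ≠ 0) :
    ∃ (N : ℕ) (P : Fin n → FractionRing (MvPolynomial (Fin N) k)),
      ∀ G : MvPolynomial (Fin n) k, aeval P G = 0 ↔ (∑ i, C (a i) * X i ^ d) ∣ G := by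
  classical
  obtain ⟨n', rfl⟩ : ∃ n', n = n' + 2 := ⟨n - 2, by omega⟩
  have hirr := irreducible_diag n' d (by omega) (by omega) a ha
  have hF : (∑ i, C (a i) * X i ^ d : MvPolynomial (Fin (n' + 2)) k).IsHomogeneous d := by
    refine IsHomogeneous.sum _ _ _ fun i _ => ?_
    simpa using (isHomogeneous_C (Fin (n' + 2)) (a i)).mul ((isHomogeneous_X k i).pow d)
  set F : MvPolynomial (Fin (n' + 2)) k := ∑ i, C (a i) * X i ^ d with hFdef
  have hpd : ∀ l, pderiv l F = C (a l * (d : k)) * X l ^ (d - 1) := fun l =>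
    pderiv_dform (n' + 2) d a l
  let m := 2 ^ (d - 2)
  have hm2 : 2 * m ≤ n' + 2 := by
    have h1 : 2 * m = 2 ^ (d - 1) := by
      have h2 : d - 1 = (d - 2) + 1 := by omega
      rw [h2, pow_succ]
      ring
    rw [h1]
    exact h
  let i0 : Fin m → Fin (n' + 2) := fun j => ⟨2 * j, by have := j.2; omega⟩
  let i1 : Fin m → Fin (n' + 2) := fun j => ⟨2 * j + 1, by have := j.2; omega⟩
  have h01 : ∀ i j, i0 i ≠ i1 j := by
    intro i j h1
    have h2 := congrArg Fin.val h1
    simp only [i0, i1] at h2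
    omega
  have h00 : ∀ i j, i ≠ j → i0 i ≠ i0 j := by
    intro i j hij h1
    have h2 := congrArg Fin.val h1
    simp only [i0] at h2
    exact hij (Fin.ext (by omega))
  have h11 : ∀ i j, i ≠ j → i1 i ≠ i1 j := by
    intro i j hij h1
    have h2 := congrArg Fin.val h1
    simp only [i1] at h2
    exact hij (Fin.ext (by omega))
  have hρ : ∀ j, ∃ ρ : k, ρ ^ d = -a (i1 j) / a (i0 j) := fun j =>
    IsAlgClosed.exists_pow_nat_eq _ (by omega)
  choose ρ hρ using hρ
  let p : Fin m → Fin (n' + 2) → k := fun j l => if l = i0 j then ρ j else if l = i1 j then 1 else 0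
  have hp0 : ∀ j, p j (i0 j) = ρ j := fun j => if_pos rfl
  have hp1 : ∀ j, p j (i1 j) = 1 := fun j => by
    simp only [p]
    rw [if_neg (h01 j j).symm]
    simp
  have hpz : ∀ j l, l ≠ i0 j → l ≠ i1 j → p j l = 0 := fun j l h1 h2 => by
    simp only [p]
    rw [if_neg h1, if_neg h2]
  have hp10 : ∀ i j, i ≠ j → p j (i1 i) = 0 := fun i j hij =>
    hpz j _ (h01 j i).symm (h11 i j hij)
  have hmul : ∀ i j l, i ≠ j → p i l * p j l = 0 := by
    intro i j l hij
    by_cases h1 : l = i0 i
    · rw [h1, hpz j _ (h00 i j hij) (h01 i j), mul_zero]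
    by_cases h2 : l = i1 i
    · rw [h2, hp10 i j hij, mul_zero]
    rw [hpz i l h1 h2, zero_mul]
  refine forms hirr hF hd (m := m) le_rfl (p := p) ?_ ?_ ?_ ?_
  · rw [Fintype.linearIndependent_iff]
    intro g hg i
    have h1 := congrFun hg (i1 i)
    rw [Finset.sum_apply, Finset.sum_eq_single i] at h1
    · simpa [hp1] using h1
    · intro j _ hj
      rw [Pi.smul_apply, hp10 i j (Ne.symm hj), smul_zero]
    · intro h
      exact absurd (Finset.mem_univ i) h
  · intro j
    rw [hFdef, map_sum]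
    simp only [map_mul, eval_C, map_pow, eval_X]
    rw [← Finset.sum_subset (Finset.subset_univ {i0 j, i1 j})]
    · rw [Finset.sum_pair (h01 j j), hp0, hp1, hρ, one_pow, mul_one,
        mul_div_cancel₀ _ (ha _)]
      ring
    · intro l _ hl
      simp only [Finset.mem_insert, Finset.mem_singleton, not_or] at hl
      rw [hpz j l hl.1 hl.2, zero_pow (by omega), mul_zero]
  · rw [Fintype.linearIndependent_iff]
    intro g hg i
    have h1 := congrFun hg (i1 i)
    rw [Finset.sum_apply, Finset.sum_eq_single i] at h1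
    · rw [Pi.smul_apply, hpd] at h1
      simp only [map_mul, eval_C, map_pow, eval_X, hp1, one_pow, mul_one, smul_eq_mul] at h1
      have h2 : a (i1 i) * (d : k) ≠ 0 := mul_ne_zero (ha _) (by exact_mod_cast (by omega : d ≠ 0))
      have h3 : g i * (a (i1 i) * (d : k)) = 0 := h1
      exact (mul_eq_zero.1 h3).resolve_right h2
    · intro j _ hj
      rw [Pi.smul_apply, hpd]
      simp only [map_mul, eval_C, map_pow, eval_X]
      rw [hp10 i j (Ne.symm hj), zero_pow (by omega), mul_zero, smul_zero]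
    · intro h
      exact absurd (Finset.mem_univ i) h
  · intro i j hij
    unfold dirDeriv
    refine Finset.sum_eq_zero fun l _ => ?_
    have h1 : pderiv l (∑ l', C (p j l') * pderiv l' F) =
        C (p j l) * pderiv l (pderiv l F) := by
      rw [map_sum, Finset.sum_eq_single l]
      · rw [pderiv_C_mul]
      · intro l' _ hl
        rw [pderiv_C_mul, hpd, pderiv_C_mul, pderiv_pow, pderiv_X_of_ne hl]
        simp
      · intro h
        exact absurd (Finset.mem_univ l) h
    rw [h1, ← mul_assoc, ← C_mul, hmul i j l hij, C_0, zero_mul]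

end Pool.Agent.T9h4.SH
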