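import Pool.Agent.T9h4.SH.Tr

/-!
Sums of polynomials of degree `e + 1` in one variable with independent leading coefficients.
-/

set_option autoImplicit false

open IntermediateField Polynomial

namespace Pool.Agent.T9h4.SH

variable {k Ω : Type} [Field k] [Field Ω] [Algebra k Ω]

theorem Pure.of_family {ι : Type} [Fintype ι] (f : ι → Ω) (hf : AlgebraicIndependent k f)
    {L : IntermediateField k Ω} (hL : L ≤ adjoin k (Set.range f)) : Pure L := by
  refine ⟨Fintype.card ι, f ∘ (Fintype.equivFin ι).symm, hf.comp _ (Equiv.injective _), ?_⟩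
  rwa [Set.range_comp, (Fintype.equivFin ι).symm.range_eq_univ, Set.image_univ]

theorem natDegree_comp_lin (g : Polynomial Ω) (ω t : Ω) {n : ℕ} (h : g.natDegree ≤ n) :
    (g.comp (C ω * X + C t)).natDegree ≤ n := by
  refine natDegree_comp_le.trans ?_
  calc g.natDegree * (C ω * X + C t).natDegree ≤ g.natDegree * 1 :=
        Nat.mul_le_mul_left _ natDegree_linear_le
    _ ≤ n := by rw [mul_one]; exact h

theorem coeff_comp_lin (g : Polynomial Ω) (ω t : Ω) (i : ℕ) :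
    (g.comp (C ω * X + C t)).coeff i = ω ^ i * (hasseDeriv i g).eval t := by
  have h1 : g.comp (C ω * X + C t) = (g.comp (X + C t)).comp (C ω * X) := by
    rw [comp_assoc]
    congr 1
    simp
  rw [h1, comp_C_mul_X_coeff, ← taylor_apply, taylor_coeff, mul_comm]

theorem eval_hasse_top (g : Polynomial Ω) (t : Ω) {n : ℕ} (h : g.natDegree ≤ n) :
    (hasseDeriv n g).eval t = g.coeff n := by
  have h1 : (hasseDeriv n g).natDegree ≤ 0 := by
    refine (natDegree_hasseDeriv_le _ _).trans ?_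
    omega
  rw [eq_C_of_natDegree_le_zero h1, eval_C, hasseDeriv_coeff]
  simp

theorem eval_hasse_sub (g : Polynomial Ω) (t : Ω) {n : ℕ} (h : g.natDegree ≤ n + 1) :
    (hasseDeriv n g).eval t = g.coeff n + (n + 1) * g.coeff (n + 1) * t := by
  have h1 : (hasseDeriv n g).natDegree ≤ 1 := by
    refine (natDegree_hasseDeriv_le _ _).trans ?_
    omega
  rw [eq_X_add_C_of_natDegree_le_one h1, eval_add, eval_mul, eval_C, eval_X, eval_C,
    hasseDeriv_coeff, hasseDeriv_coeff]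
  have h2 : (1 + n).choose n = n + 1 := by
    rw [add_comm 1 n, Nat.choose_succ_self_right]
  rw [h2, zero_add, Nat.choose_self, add_comm 1 n]
  push_cast
  ring

theorem exists_zeta [CharZero Ω] [IsAlgClosed Ω] (e : ℕ) (he : 1 ≤ e) :
    ∃ ζ : Ω, ζ ^ (e + 1) = 1 ∧ ζ ^ e ≠ 1 := by
  obtain ⟨ζ, hζ⟩ := HasEnoughRootsOfUnity.exists_primitiveRoot Ω (e + 1)
  exact ⟨ζ, hζ.pow_eq_one, hζ.pow_ne_one_of_pos_of_lt (by omega) (by omega)⟩

theorem exists_root [CharZero Ω] [IsAlgClosed Ω] (e : ℕ) (he : 1 ≤ e) {c0 c1 a0 a1 s0 s1 : Ω}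
    (hc1 : c1 ≠ 0)
    (h : ¬ ((e + 1) * c0 * s0 + a0 = 0 ∧ (e + 1) * c1 * s1 + a1 = 0)) (hc0 : c0 ≠ 0) :
    ∃ ω : Ω, ω ≠ 0 ∧ c0 + ω ^ (e + 1) * c1 = 0 ∧
      a0 + ω ^ e * (a1 + (e + 1) * c1 * (s1 - ω * s0)) ≠ 0 := by
  obtain ⟨ω, hω⟩ := IsAlgClosed.exists_pow_nat_eq (-c0 / c1) (Nat.succ_pos e)
  obtain ⟨ζ, hζ1, hζ2⟩ := exists_zeta (Ω := Ω) e he
  have hω1 : ω ^ (e + 1) * c1 = - c0 := by
    have h1 : ω ^ (e + 1) = -c0 / c1 := hω
    rw [h1, div_mul_cancel₀ _ hc1]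
  have hω0 : ω ≠ 0 := by
    rintro rfl
    rw [zero_pow (by omega), zero_mul] at hω1
    exact hc0 (neg_eq_zero.1 hω1.symm)
  have hζ0 : ζ ≠ 0 := by
    rintro rfl
    rw [zero_pow (by omega)] at hζ1
    exact zero_ne_one hζ1
  have key : ∀ w : Ω, w ^ (e + 1) * c1 = - c0 →
      a0 + w ^ e * (a1 + (e + 1) * c1 * (s1 - w * s0)) =
        ((e + 1) * c0 * s0 + a0) + w ^ e * ((e + 1) * c1 * s1 + a1) := by
    intro w hw
    have h2 : w ^ e * (a1 + (e + 1) * c1 * (s1 - w * s0)) =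
        w ^ e * ((e + 1) * c1 * s1 + a1) - (e + 1) * s0 * (w ^ (e + 1) * c1) := by
      rw [pow_succ]
      ring
    rw [h2, hw]
    ring
  by_cases h1 : a0 + ω ^ e * (a1 + (e + 1) * c1 * (s1 - ω * s0)) = 0
  · refine ⟨ζ * ω, mul_ne_zero hζ0 hω0, ?_, ?_⟩
    · rw [mul_pow, hζ1, one_mul, hω1]
      ring
    · intro h3
      have h4 : (ζ * ω) ^ (e + 1) * c1 = - c0 := by rw [mul_pow, hζ1, one_mul, hω1]
      rw [key _ h4, mul_pow] at h3
      rw [key _ hω1] at h1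
      have h5 : ω ^ e * (ζ ^ e - 1) * ((e + 1) * c1 * s1 + a1) = 0 := by
        linear_combination h3 - h1
      have h6 : (e + 1) * c1 * s1 + a1 = 0 := by
        rcases mul_eq_zero.1 h5 with h6 | h6
        · exact absurd h6 (mul_ne_zero (pow_ne_zero _ hω0) (sub_ne_zero.2 hζ2))
        · exact h6
      refine h ⟨?_, h6⟩
      rw [h6, mul_zero, add_zero] at h1
      exact h1
  · exact ⟨ω, hω0, by rw [hω1]; ring, h1⟩

/-- coefficients of a composition with a linear polynomial -/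
theorem coeff_comp_mem {L : IntermediateField k Ω} {g : Polynomial Ω} (hg : ∀ i, g.coeff i ∈ L) {ω t : Ω}
    (hω : ω ∈ L) (ht : t ∈ L) (i : ℕ) : (g.comp (C ω * X + C t)).coeff i ∈ L := by
  rw [coeff_comp_lin]
  refine mul_mem (pow_mem hω _) ?_
  rw [eval_eq_sum_range]
  refine sum_mem fun j _ => mul_mem ?_ (pow_mem ht _)
  rw [hasseDeriv_coeff]
  exact mul_mem (_root_.natCast_mem _ _) (hg _)

end Pool.Agent.T9h4.SH
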