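import Mathlib

/-!
Restrictions of polynomials to lines.
-/

set_option autoImplicit false
set_option linter.unusedSectionVars false

open MvPolynomial

namespace Pool.Agent.T9h4.SH

variable {K : Type} [Field K] {σ : Type} [Fintype σ]

/-- the restriction of `F` to the line `y + X v` -/
noncomputable def line (F : MvPolynomial σ K) (y v : σ → K) : Polynomial K :=
  aeval (fun l => Polynomial.C (y l) + Polynomial.C (v l) * Polynomial.X) F

/-- the derivative of `F` in the direction `v` -/
noncomputable def dirDeriv {k : Type} [Field k] (v : σ → k) (F : MvPolynomial σ k) :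
    MvPolynomial σ k :=
  ∑ l, C (v l) * pderiv l F

theorem eval_line (F : MvPolynomial σ K) (y v : σ → K) (a : K) :
    (line F y v).eval a = eval (fun l => y l + a * v l) F := by
  unfold line
  have h1 : ∀ q : Polynomial K, q.eval a = (Polynomial.aeval a : Polynomial K →ₐ[K] K) q :=
    fun q => by simp
  rw [h1, ← AlgHom.comp_apply, MvPolynomial.comp_aeval]
  have h2 : eval (fun l => y l + a * v l) F = aeval (fun l => y l + a * v l) F := by
    rw [← coe_aeval_eq_eval]
    rfl
  rw [h2]
  congr 2
  funext l
  simp only [map_add, map_mul, Polynomial.aeval_C, Polynomial.aeval_X,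
    Algebra.algebraMap_self_apply]
  ring

theorem dirDeriv_mul (v : σ → K) (F G : MvPolynomial σ K) :
    dirDeriv v (F * G) = dirDeriv v F * G + F * dirDeriv v G := by
  unfold dirDeriv
  rw [Finset.sum_mul, Finset.mul_sum, ← Finset.sum_add_distrib]
  refine Finset.sum_congr rfl fun l _ => ?_
  rw [pderiv_mul]
  ring

theorem dirDeriv_X [DecidableEq σ] (v : σ → K) (i : σ) :
    dirDeriv v (X i : MvPolynomial σ K) = C (v i) := by
  unfold dirDeriv
  rw [Finset.sum_eq_single i]
  · rw [pderiv_X_self, mul_one]
  · intro l _ hl
    rw [pderiv_X_of_ne (Ne.symm hl), mul_zero]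
  · intro h
    exact absurd (Finset.mem_univ i) h

theorem derivative_line (F : MvPolynomial σ K) (y v : σ → K) :
    Polynomial.derivative (line F y v) = line (dirDeriv v F) y v := by
  classical
  induction F using MvPolynomial.induction_on with
  | C a =>
    have h1 : dirDeriv v (C a : MvPolynomial σ K) = 0 := by
      unfold dirDeriv
      refine Finset.sum_eq_zero fun l _ => ?_
      rw [pderiv_C, mul_zero]
    rw [h1]
    unfold line
    rw [map_zero, aeval_C]
    exact Polynomial.derivative_C
  | add p q hp hq =>
    have h1 : dirDeriv v (p + q) = dirDeriv v p + dirDeriv v q := by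
      unfold dirDeriv
      rw [← Finset.sum_add_distrib]
      refine Finset.sum_congr rfl fun l _ => ?_
      rw [map_add, mul_add]
    rw [h1]
    unfold line at *
    rw [map_add, map_add, map_add, hp, hq]
  | mul_X p i hp =>
    rw [dirDeriv_mul, dirDeriv_X]
    unfold line at *
    rw [map_mul, Polynomial.derivative_mul, hp, map_add, map_mul, map_mul, aeval_X]
    congr 2
    rw [aeval_C]
    simp

theorem eval_translate [CharZero K] {H : MvPolynomial σ K} {v : σ → K} (h : dirDeriv v H = 0)
    (y : σ → K) (b : K) : eval (fun l => y l + b * v l) H = eval y H := by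
  have h1 : Polynomial.derivative (line H y v) = 0 := by
    rw [derivative_line, h]
    unfold line
    rw [map_zero]
  have h2 := Polynomial.derivative_eq_zero.1 h1
  obtain ⟨c, hc⟩ := Polynomial.natDegree_eq_zero.1 h2
  have h3 : (line H y v).eval b = (line H y v).eval 0 := by
    rw [← hc, Polynomial.eval_C, Polynomial.eval_C]
  rw [eval_line, eval_line] at h3
  simpa using h3

/-- the difference in the direction `v` is invariant in the direction `w` -/
theorem eval_diff [CharZero K] {F : MvPolynomial σ K} {v w : σ → K}
    (h : dirDeriv w (dirDeriv v F) = 0) (y : σ → K) (a b : K) :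
    eval (fun l => y l + b * w l + a * v l) F - eval (fun l => y l + b * w l) F =
      eval (fun l => y l + a * v l) F - eval y F := by
  let q : Polynomial K := line F (fun l => y l + b * w l) v - line F y v
  have h1 : Polynomial.derivative q = 0 := by
    simp only [q]
    rw [map_sub, derivative_line, derivative_line, sub_eq_zero]
    apply Polynomial.funext
    intro x
    rw [eval_line, eval_line]
    have h2 := eval_translate h (fun l => y l + x * v l) b
    rw [← h2]
    congr 2
    funext l
    ring
  have h2 := Polynomial.derivative_eq_zero.1 h1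
  obtain ⟨c, hc⟩ := Polynomial.natDegree_eq_zero.1 h2
  have h3 : q.eval a = q.eval 0 := by
    rw [← hc, Polynomial.eval_C, Polynomial.eval_C]
  simp only [q, Polynomial.eval_sub, eval_line] at h3
  simp only [zero_mul, add_zero] at h3
  linear_combination h3

/-- separation of the variables -/
theorem eval_separate [CharZero K] {ι : Type} [Fintype ι] [DecidableEq ι] {F : MvPolynomial σ K}
    {p : ι → σ → K} (h : ∀ i j, i ≠ j → dirDeriv (p i) (dirDeriv (p j) F) = 0) (y : σ → K)
    (s : ι → K) (S : Finset ι) :
    eval (fun l => y l + ∑ j ∈ S, s j * p j l) F =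
      eval y F + ∑ j ∈ S, (eval (fun l => y l + s j * p j l) F - eval y F) := by
  induction S using Finset.induction_on with
  | empty => simp
  | insert i S hi ih =>
    have key : ∀ (T : Finset ι), i ∉ T →
        eval (fun l => y l + ∑ j ∈ T, s j * p j l + s i * p i l) F -
          eval (fun l => y l + ∑ j ∈ T, s j * p j l) F =
        eval (fun l => y l + s i * p i l) F - eval y F := by
      intro T
      induction T using Finset.induction_on with
      | empty => intro _; simp
      | insert j T hj ihT =>
        intro hiT
        have h1 : i ∉ T := fun h => hiT (Finset.mem_insert_of_mem h)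
        have h2 : j ≠ i := fun h => hiT (h ▸ Finset.mem_insert_self _ _)
        rw [← ihT h1]
        have h3 := eval_diff (h j i h2) (fun l => y l + ∑ j ∈ T, s j * p j l) (s i) (s j)
        rw [← h3]
        congr 1
        · congr 2
          funext l
          rw [Finset.sum_insert hj]
          ring
        · congr 2
          funext l
          rw [Finset.sum_insert hj]
          ring
    rw [Finset.sum_insert hi, ← key S hi]
    have h4 : eval (fun l => y l + ∑ j ∈ insert i S, s j * p j l) F =
        eval (fun l => y l + ∑ j ∈ S, s j * p j l + s i * p i l) F := by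
      congr 2
      funext l
      rw [Finset.sum_insert hi]
      ring
    rw [h4]
    linear_combination ih

theorem eval_smul_of_homogeneous {F : MvPolynomial σ K} {d : ℕ} (hF : F.IsHomogeneous d)
    (a : K) (y : σ → K) : eval (fun l => a * y l) F = a ^ d * eval y F := by
  rw [eval_eq, eval_eq, Finset.mul_sum]
  refine Finset.sum_congr rfl fun m hm => ?_
  have h1 : ∏ i ∈ m.support, (a * y i) ^ m i = a ^ d * ∏ i ∈ m.support, y i ^ m i := by
    simp only [mul_pow]
    rw [Finset.prod_mul_distrib, Finset.prod_pow_eq_pow_sum]
    congr 2
    exact hF.degree_eq_sum_deg_support hm ▸ rfl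
  rw [h1]
  ring

theorem line_reflect [Infinite K] {F : MvPolynomial σ K} {d : ℕ} (hF : F.IsHomogeneous d)
    (y v : σ → K) : line F y v = Polynomial.reflect d (line F v y) := by
  have hd : (line F v y).natDegree ≤ d := by
    have h := aeval_natDegree_le F hF.totalDegree_le
      (fun l => Polynomial.C (v l) + Polynomial.C (y l) * Polynomial.X) (n := 1) (fun i => by
        rw [add_comm]
        exact Polynomial.natDegree_linear_le)
    rw [mul_one] at h
    exact h
  have h1 : ∀ a : K, a ≠ 0 → (line F y v - Polynomial.reflect d (line F v y)).eval a = 0 := by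
    intro a ha
    rw [Polynomial.eval_sub, eval_line]
    let _ : Invertible (a⁻¹) := invertibleOfNonzero (inv_ne_zero ha)
    have h2 := Polynomial.eval₂_reflect_mul_pow (RingHom.id K) a⁻¹ d (line F v y) hd
    rw [invOf_eq_inv, inv_inv] at h2
    rw [Polynomial.eval₂_id, Polynomial.eval₂_id, eval_line] at h2
    have h3 : eval (fun l => v l + a⁻¹ * y l) F = (a⁻¹) ^ d * eval (fun l => y l + a * v l) F := by
      rw [← eval_smul_of_homogeneous hF]
      congr 2
      funext l
      field_simp
      ring
    rw [h3] at h2
    have h4 : (a⁻¹) ^ d ≠ 0 := pow_ne_zero _ (inv_ne_zero ha)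
    have h5 : Polynomial.eval a (Polynomial.reflect d (line F v y)) =
        eval (fun l => y l + a * v l) F := by
      apply mul_right_cancel₀ h4
      rw [h2]
      ring
    rw [h5, sub_self]
  by_contra hne
  have h2 := sub_ne_zero.2 hne
  have h3 : Set.Finite {a : K | (line F y v - Polynomial.reflect d (line F v y)).eval a = 0} :=
    (line F y v - Polynomial.reflect d (line F v y)).rootSet_finite K |>.subset (by
      intro a ha
      rw [Polynomial.mem_rootSet]
      exact ⟨h2, by simpa using ha⟩)
  have h4 : Set.Finite ({0} ∪ {a : K | (line F y v -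
      Polynomial.reflect d (line F v y)).eval a = 0}) := (Set.finite_singleton 0).union h3
  have h5 : ({0} ∪ {a : K | (line F y v -
      Polynomial.reflect d (line F v y)).eval a = 0}) = Set.univ := by
    ext a
    simp only [Set.mem_union, Set.mem_singleton_iff, Set.mem_ofPred_eq, Set.mem_univ, iff_true]
    by_cases ha : a = 0
    · exact Or.inl ha
    · exact Or.inr (h1 a ha)
  rw [h5] at h4
  exact Set.infinite_univ h4

theorem coeff_line_top [Infinite K] {F : MvPolynomial σ K} {d : ℕ} (hF : F.IsHomogeneous d)
    (y v : σ → K) : (line F y v).coeff d = eval v F := by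
  rw [line_reflect hF, Polynomial.coeff_reflect, Polynomial.revAt_le le_rfl, Nat.sub_self,
    Polynomial.coeff_zero_eq_eval_zero, eval_line]
  simp

theorem coeff_line_sub [Infinite K] {F : MvPolynomial σ K} {d : ℕ} (hd : 1 ≤ d)
    (hF : F.IsHomogeneous d) (y v : σ → K) :
    (line F y v).coeff (d - 1) = ∑ l, y l * eval v (pderiv l F) := by
  rw [line_reflect hF, Polynomial.coeff_reflect, Polynomial.revAt_le (Nat.sub_le _ _)]
  have h1 : d - (d - 1) = 1 := by omega
  rw [h1]
  have h2 : (line F v y).coeff 1 = (Polynomial.derivative (line F v y)).eval 0 := by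
    rw [← Polynomial.coeff_zero_eq_eval_zero, Polynomial.coeff_derivative]
    simp
  rw [h2, derivative_line, eval_line]
  simp only [zero_mul, add_zero]
  unfold dirDeriv
  rw [map_sum]
  simp only [map_mul, eval_C]

theorem natDegree_line_le {F : MvPolynomial σ K} {d : ℕ} (hF : F.IsHomogeneous d)
    (y v : σ → K) : (line F y v).natDegree ≤ d := by
  have h := aeval_natDegree_le F hF.totalDegree_le
    (fun l => Polynomial.C (y l) + Polynomial.C (v l) * Polynomial.X) (n := 1) (fun i => by
      rw [add_comm]
      exact Polynomial.natDegree_linear_le)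
  rw [mul_one] at h
  exact h

end Pool.Agent.T9h4.SH
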