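import Pool.Agent.T9h4.SH.Gen
import Pool.Agent.T9h4.SH.Line
import Pool.Agent.R867.H.Gp

/-!
Forms with separated smooth points.
-/

set_option autoImplicit false

open IntermediateField MvPolynomial

namespace Pool.Agent.T9h4.SH

open Pool.Agent.R867.H (GP exists_gp indep_of)

variable {k : Type} [Field k] {n m : ℕ}

theorem map_dirDeriv {K : Type} [Field K] (f : k →+* K) (v : Fin n → k)
    (F : MvPolynomial (Fin n) k) :
    map f (dirDeriv v F) = dirDeriv (fun l => f (v l)) (map f F) := by
  unfold dirDeriv
  rw [map_sum]
  refine Finset.sum_congr rfl fun l _ => ?_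
  rw [map_mul, map_C, pderiv_map]

theorem coeff_line_mem {K : Type} [Field K] [Algebra k K] {L : IntermediateField k K}
    {y : Fin n → K} (hy : ∀ l, y l ∈ L) (v : Fin n → k) (F : MvPolynomial (Fin n) k) (i : ℕ) :
    (line (map (algebraMap k K) F) y (fun l => algebraMap k K (v l))).coeff i ∈ L := by
  induction F using MvPolynomial.induction_on generalizing i with
  | C a =>
    unfold line
    rw [map_C, aeval_C, Polynomial.algebraMap_apply, Algebra.algebraMap_self_apply,
      Polynomial.coeff_C]
    split_ifs
    · exact L.algebraMap_mem a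
    · exact zero_mem _
  | add p q hp hq =>
    unfold line at *
    rw [map_add, map_add, Polynomial.coeff_add]
    exact add_mem (hp i) (hq i)
  | mul_X p j hp =>
    unfold line at *
    rw [map_mul, map_mul, map_X, aeval_X, mul_add, Polynomial.coeff_add, Polynomial.coeff_mul_C]
    refine add_mem (mul_mem (hp i) (hy j)) ?_
    rw [← mul_assoc, mul_comm (_ * _) Polynomial.X]
    cases i with
    | zero =>
      rw [Polynomial.coeff_zero_eq_eval_zero]
      simp
    | succ i =>
      rw [Polynomial.coeff_X_mul, Polynomial.coeff_mul_C]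
      exact mul_mem (hp i) (L.algebraMap_mem _)

theorem eval_zero_pderiv {F : MvPolynomial (Fin n) k} {d : ℕ} (hF : F.IsHomogeneous d)
    (hd : 2 ≤ d) (l : Fin n) : eval (fun _ => (0 : k)) (pderiv l F) = 0 := by
  have h1 := eval_smul_of_homogeneous (hF.pderiv (i := l)) (0 : k) (fun _ => (0 : k))
  rw [zero_pow (by omega), zero_mul] at h1
  simpa using h1

/-- the tangent hyperplanes contain all the points -/
theorem orthogonal [CharZero k] {F : MvPolynomial (Fin n) k} {d : ℕ} (hF : F.IsHomogeneous d)
    (hd : 2 ≤ d) {p : Fin m → Fin n → k} (h0 : ∀ i, eval (p i) F = 0)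
    (hsep : ∀ i j, i ≠ j → dirDeriv (p i) (dirDeriv (p j) F) = 0) (i j : Fin m) :
    ∑ l, eval (p i) (pderiv l F) * p j l = 0 := by
  have h1 : ∑ l, eval (p i) (pderiv l F) * p j l = eval (p i) (dirDeriv (p j) F) := by
    unfold dirDeriv
    rw [map_sum]
    refine Finset.sum_congr rfl fun l _ => ?_
    rw [map_mul, eval_C, mul_comm]
  rw [h1]
  by_cases hij : i = j
  · subst hij
    have h2 : line F (p i) (p i) = 0 := by
      apply Polynomial.funext
      intro a
      rw [eval_line, Polynomial.eval_zero]
      have h3 := eval_smul_of_homogeneous hF (1 + a) (p i)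
      rw [h0, mul_zero] at h3
      rw [← h3]
      congr 2
      funext l
      ring
    have h3 := derivative_line F (p i) (p i)
    rw [h2, Polynomial.derivative_zero] at h3
    have h4 := eval_line (dirDeriv (p i) F) (p i) (p i) 0
    rw [← h3, Polynomial.eval_zero] at h4
    rw [h4]
    congr 2
    funext l
    ring
  · have h2 := eval_translate (hsep i j hij) (fun _ => (0 : k)) 1
    have h3 : eval (p i) (dirDeriv (p j) F) =
        eval (fun l => (fun _ => (0 : k)) l + 1 * p i l) (dirDeriv (p j) F) := by
      congr 2
      funext l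
      ring
    rw [h3, h2]
    unfold dirDeriv
    rw [map_sum]
    refine Finset.sum_eq_zero fun l _ => ?_
    rw [map_mul, eval_zero_pderiv hF hd, mul_zero]

/-- dual vectors -/
theorem exists_dual {p : Fin m → Fin n → k} (hp : LinearIndependent k p) :
    ∃ q : Fin m → Fin n → k, ∀ i j, ∑ l, q i l * p j l = if i = j then 1 else 0 := by
  classical
  have h1 : LinearMap.ker (Fintype.linearCombination k p) = ⊥ := by
    rw [LinearMap.ker_eq_bot]
    exact hp.fintypeLinearCombination_injective
  obtain ⟨g, hg⟩ := LinearMap.exists_leftInverse_of_injective _ h1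
  refine ⟨fun i l => g (Pi.single l 1) i, fun i j => ?_⟩
  have h2 : g (p j) = Pi.single j 1 := by
    have h3 := LinearMap.congr_fun hg (Pi.single j 1)
    rw [LinearMap.comp_apply, Fintype.linearCombination_apply_single, one_smul] at h3
    exact h3
  have h4 : g (p j) = ∑ l, p j l • g (Pi.single l 1) := by
    conv_lhs => rw [← Finset.univ_sum_single (p j)]
    rw [map_sum]
    refine Finset.sum_congr rfl fun l _ => ?_
    rw [← map_smul]
    congr 1
    funext l'
    simp [Pi.single_apply]
  have h5 := congrFun (h4.symm.trans h2) i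
  rw [Finset.sum_apply] at h5
  rw [Pi.single_apply] at h5
  rw [← h5]
  refine Finset.sum_congr rfl fun l _ => ?_
  rw [Pi.smul_apply, smul_eq_mul, mul_comm]

end Pool.Agent.T9h4.SH
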