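import Pool.Agent.T9h4.SH.Form

/-!
Forms with separated smooth points are unirational.
-/

set_option autoImplicit false

open IntermediateField MvPolynomial

namespace Pool.Agent.T9h4.SH

open Pool.Agent.R867.H (GP exists_gp indep_of)

variable {k : Type} [Field k] {n m : ℕ}

/-- the value of the linear form `v` at the point `ξ` -/
noncomputable def lin {K : Type} [Field K] [Algebra k K] (ξ : Fin n → K) :
    (Fin n → k) →ₗ[k] K := Fintype.linearCombination k ξ

theorem lin_apply {K : Type} [Field K] [Algebra k K] (ξ : Fin n → K) (v : Fin n → k) :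
    lin ξ v = ∑ l, algebraMap k K (v l) * ξ l := by
  unfold lin
  rw [Fintype.linearCombination_apply]
  refine Finset.sum_congr rfl fun l _ => ?_
  rw [Algebra.smul_def]

/-- a system of linear forms which vanish at the points `p`, beginning with the `w` -/
theorem exists_forms {K : Type} [Field K] [Algebra k K] (ξ : Fin n → K)
    {p w q : Fin m → Fin n → k} (hw : LinearIndependent k w)
    (hwp : ∀ i j, ∑ l, w i l * p j l = 0)
    (hq : ∀ i j, ∑ l, q i l * p j l = if i = j then 1 else 0) :
    ∃ (r : ℕ) (θ : Fin r → K), r + 2 * m = n ∧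
      ∀ v : Fin n → k, (∀ j, ∑ l, v l * p j l = 0) →
        lin ξ v ∈ adjoin k (Set.range θ ∪ Set.range fun j => lin ξ (w j)) := by
  classical
  let D : (Fin n → k) →ₗ[k] (Fin m → k) :=
    LinearMap.pi fun j => Fintype.linearCombination k (p j)
  have hD : ∀ v j, D v j = ∑ l, v l * p j l := by
    intro v j
    simp only [D, LinearMap.pi_apply, Fintype.linearCombination_apply, smul_eq_mul]
  have hsurj : Function.Surjective D := by
    intro a
    refine ⟨∑ i, a i • q i, ?_⟩
    funext j
    rw [map_sum, Finset.sum_apply, Finset.sum_eq_single j]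
    · rw [map_smul, Pi.smul_apply, hD, hq, if_pos rfl, smul_eq_mul, mul_one]
    · intro i _ hij
      rw [map_smul, Pi.smul_apply, hD, hq, if_neg hij, smul_zero]
    · intro h
      exact absurd (Finset.mem_univ j) h
  obtain ⟨A, hAD⟩ : ∃ A : Submodule k (Fin n → k), A = LinearMap.ker D := ⟨_, rfl⟩
  have hA : Module.finrank k A + m = n := by
    have h1 := LinearMap.finrank_range_add_finrank_ker D
    rw [LinearMap.range_eq_top.2 hsurj, finrank_top, Module.finrank_fin_fun,
      Module.finrank_fin_fun, ← hAD] at h1
    omega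
  have hwA : ∀ i, w i ∈ A := fun i => by
    rw [hAD, LinearMap.mem_ker]
    funext j
    rw [hD, hwp]
    rfl
  let wA : Fin m → A := fun i => ⟨w i, hwA i⟩
  have hwAi : LinearIndependent k wA := LinearIndependent.of_comp A.subtype hw
  let W := Submodule.span k (Set.range wA)
  obtain ⟨C, hC⟩ := Submodule.exists_isCompl W
  have hWr : Module.finrank k W = m := by
    have h := finrank_span_eq_card hwAi
    rwa [Fintype.card_fin] at h
  have hCr : Module.finrank k C + m = Module.finrank k A := by
    have h := Submodule.finrank_add_eq_of_isCompl hC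
    omega
  have hfree : Module.Free k C := Module.Free.of_divisionRing k C
  have hfin : Module.Finite k C := inferInstance
  let bC := Module.finBasis k C
  refine ⟨Module.finrank k C, fun i => lin ξ ((bC i : A) : Fin n → k), by omega, ?_⟩
  set L := adjoin k (Set.range (fun i => lin ξ ((bC i : A) : Fin n → k)) ∪
    Set.range fun j => lin ξ (w j)) with hL
  let φ : A →ₗ[k] K := (lin ξ).comp A.subtype
  let S : Submodule k A := Submodule.comap φ (Subalgebra.toSubmodule L.toSubalgebra)
  have hS : ∀ a : A, a ∈ S ↔ lin ξ (a : Fin n → k) ∈ L := fun a => Iff.rfl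
  have hWS : W ≤ S := by
    rw [Submodule.span_le]
    rintro _ ⟨i, rfl⟩
    exact subset_adjoin _ _ (Or.inr ⟨i, rfl⟩)
  have hCS : C ≤ S := by
    intro a ha
    have h1 := bC.sum_repr ⟨a, ha⟩
    have h2 : a = ∑ i, bC.repr ⟨a, ha⟩ i • (bC i : A) := by
      have h3 := congrArg C.subtype h1
      rw [map_sum] at h3
      simp only [map_smul] at h3
      exact h3.symm
    rw [h2]
    exact sum_mem fun i _ => Submodule.smul_mem _ _ (subset_adjoin _ _ (Or.inl ⟨i, rfl⟩))
  intro v hv
  have hvA : v ∈ A := by
    rw [hAD, LinearMap.mem_ker]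
    funext j
    rw [hD, hv]
    rfl
  have h1 : (⟨v, hvA⟩ : A) ∈ W ⊔ C := by
    rw [hC.sup_eq_top]
    trivial
  exact (hS ⟨v, hvA⟩).1 ((sup_le hWS hCS) h1)

theorem eval_map_alg {K : Type} [Field K] [Algebra k K] (v : Fin n → k)
    (G : MvPolynomial (Fin n) k) :
    eval (fun l => algebraMap k K (v l)) (map (algebraMap k K) G) = algebraMap k K (eval v G) := by
  rw [eval_map, ← aeval_def]
  have h1 := aeval_algebraMap_apply K v G
  have h2 : aeval v G = eval v G := by
    rw [← coe_aeval_eq_eval]
    rfl
  rw [h2] at h1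
  exact h1

theorem forms [CharZero k] {d : ℕ} {F : MvPolynomial (Fin n) k} (hirr : Irreducible F)
    (hF : F.IsHomogeneous d) (hd : 2 ≤ d) (hm : 2 ^ (d - 2) ≤ m) {p : Fin m → Fin n → k}
    (hp : LinearIndependent k p) (h0 : ∀ i, eval (p i) F = 0)
    (hgrad : LinearIndependent k fun i l => eval (p i) (pderiv l F))
    (hsep : ∀ i j, i ≠ j → dirDeriv (p i) (dirDeriv (p j) F) = 0) :
    ∃ (N : ℕ) (P : Fin n → FractionRing (MvPolynomial (Fin N) k)),
      ∀ G : MvPolynomial (Fin n) k, aeval P G = 0 ↔ F ∣ G := by
  classical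
  obtain ⟨K, _, _, ξ, hξ⟩ := exists_gp hirr
  have hcK : CharZero K := charZero_of_injective_algebraMap (algebraMap k K).injective
  obtain ⟨q, hq⟩ := exists_dual hp
  let w : Fin m → Fin n → k := fun i l => eval (p i) (pderiv l F)
  have hwp : ∀ i j, ∑ l, w i l * p j l = 0 := orthogonal hF hd h0 hsep
  obtain ⟨r, θ, hr, hθ⟩ := exists_forms ξ hgrad hwp hq
  let c : Fin m → K := fun j => lin ξ (w j)
  let s : Fin m → K := fun j => lin ξ (q j)
  let pK : Fin m → Fin n → K := fun j l => algebraMap k K (p j l)
  let τ : Fin n → K := fun l => ξ l - ∑ j, s j * pK j l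
  set L := adjoin k (Set.range θ ∪ Set.range c) with hL
  -- the coordinates `τ`
  have hτL : ∀ l, τ l ∈ L := by
    intro l
    have h1 : τ l = lin ξ (Pi.single l 1 - ∑ j, p j l • q j) := by
      rw [map_sub, map_sum]
      simp only [τ]
      congr 1
      · rw [lin_apply, Finset.sum_eq_single l]
        · rw [Pi.single_eq_same, map_one, one_mul]
        · intro l' _ hl
          rw [Pi.single_eq_of_ne hl, map_zero, zero_mul]
        · intro h
          exact absurd (Finset.mem_univ l) h
      · refine Finset.sum_congr rfl fun j _ => ?_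
        rw [map_smul, Algebra.smul_def, mul_comm]
    rw [h1]
    refine hθ _ fun i => ?_
    have h2 : ∑ l', (Pi.single l 1 - ∑ j, p j l • q j : Fin n → k) l' * p i l' =
        ∑ l', (Pi.single l 1 : Fin n → k) l' * p i l' -
          ∑ j, p j l * ∑ l', q j l' * p i l' := by
      have h3 : ∀ l', (Pi.single l 1 - ∑ j, p j l • q j : Fin n → k) l' * p i l' =
          (Pi.single l 1 : Fin n → k) l' * p i l' - ∑ j, p j l * (q j l' * p i l') := by
        intro l'
        rw [Pi.sub_apply, Finset.sum_apply, sub_mul, Finset.sum_mul]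
        congr 1
        refine Finset.sum_congr rfl fun j _ => ?_
        rw [Pi.smul_apply, smul_eq_mul, mul_assoc]
      simp only [h3]
      rw [Finset.sum_sub_distrib, Finset.sum_comm]
      simp only [Finset.mul_sum]
    rw [h2, Finset.sum_eq_single l]
    · simp only [hq]
      simp
    · intro l' _ hl
      rw [Pi.single_eq_of_ne hl, zero_mul]
    · intro h
      exact absurd (Finset.mem_univ l) h
  have hξτ : ∀ l, ξ l = τ l + ∑ j, s j * pK j l := by
    intro l
    simp only [τ]
    ring
  let FK := map (algebraMap k K) F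
  have hFK : FK.IsHomogeneous d := hF.map _
  have hsepK : ∀ i j, i ≠ j → dirDeriv (pK i) (dirDeriv (pK j) FK) = 0 := by
    intro i j hij
    have h1 := map_dirDeriv (algebraMap k K) (p i) (dirDeriv (p j) F)
    rw [hsep i j hij, map_zero, map_dirDeriv] at h1
    exact h1.symm
  have hzero : eval ξ FK = 0 := by
    rw [eval_map, ← aeval_def]
    exact (hξ.zero_iff F).2 dvd_rfl
  have hm0 : 0 < m := lt_of_lt_of_le (by positivity) hm
  let z : Fin m := ⟨0, hm0⟩
  let a : K := eval τ FK
  have haL : a ∈ L := by
    have h1 := coeff_line_mem hτL (p z) F 0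
    rw [Polynomial.coeff_zero_eq_eval_zero, eval_line] at h1
    have h2 : eval (fun l => τ l + 0 * algebraMap k K (p z l)) (map (algebraMap k K) F) = a := by
      congr 2
      funext l
      ring
    rwa [h2] at h1
  let g : Fin m → Polynomial K := fun j =>
    line FK τ (pK j) + Polynomial.C (-a + if j = z then a else 0)
  have hd1 : d - 2 + 1 = d - 1 := by omega
  have hcc : ∀ j, ∑ l, τ l * eval (pK j) (pderiv l FK) = c j := by
    intro j
    have h1 : ∀ l, eval (pK j) (pderiv l FK) = algebraMap k K (w j l) := by
      intro l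
      simp only [FK, w, pK]
      rw [pderiv_map, eval_map_alg]
    simp only [h1, τ]
    have h2 : ∀ l, (ξ l - ∑ i, s i * pK i l) * algebraMap k K (w j l) =
        algebraMap k K (w j l) * ξ l - ∑ i, s i * algebraMap k K (w j l * p i l) := by
      intro l
      rw [sub_mul, Finset.sum_mul]
      congr 1
      · ring
      · refine Finset.sum_congr rfl fun i _ => ?_
        simp only [pK, map_mul]
        ring
    simp only [h2]
    rw [Finset.sum_sub_distrib, Finset.sum_comm]
    simp only [← Finset.mul_sum, ← map_sum, hwp, map_zero, mul_zero, Finset.sum_const_zero,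
      sub_zero]
    simp only [c]
    rw [lin_apply]
  have hc0 : ∀ j, c j ≠ 0 := by
    intro j hj
    let ℓ : MvPolynomial (Fin n) k := ∑ l, C (w j l) * X l
    have h1 : aeval ξ ℓ = 0 := by
      rw [← hj]
      simp only [ℓ, c]
      rw [lin_apply, map_sum]
      refine Finset.sum_congr rfl fun l _ => ?_
      rw [map_mul, aeval_C, aeval_X]
    have h2 : F ∣ ℓ := (hξ.zero_iff _).1 h1
    have h3 : ℓ ≠ 0 := by
      intro h4
      apply hgrad.ne_zero j
      funext l
      have h5 := congrArg (pderiv l) h4
      simp only [ℓ] at h5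
      rw [map_sum, Finset.sum_eq_single l] at h5
      · rw [pderiv_C_mul, pderiv_X_self, mul_one, map_zero] at h5
        exact C_injective _ _ (h5.trans C_0.symm)
      · intro l' _ hl
        rw [pderiv_C_mul, pderiv_X_of_ne hl, mul_zero]
      · intro h
        exact absurd (Finset.mem_univ l) h
    have h4 := totalDegree_le_of_dvd_of_isDomain h2 h3
    rw [hF.totalDegree hirr.ne_zero] at h4
    have h5 : ℓ.totalDegree ≤ 1 := by
      refine (totalDegree_finsetSum_le fun l _ => ?_)
      refine (totalDegree_mul _ _).trans ?_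
      rw [totalDegree_C, totalDegree_X]
    omega
  -- an independent family
  have hn1 : ∃ l, degreeOf l F ≠ 0 := by
    by_contra hcon
    push Not at hcon
    have h1 : F.totalDegree = 0 := by
      rw [totalDegree_eq_zero_iff]
      intro mm hmm l
      have h2 := monomial_le_degreeOf l hmm
      rw [hcon l] at h2
      omega
    rw [hF.totalDegree hirr.ne_zero] at h1
    omega
  obtain ⟨l₀, hl₀⟩ := hn1
  have hind := indep_of hirr.ne_zero hl₀ (fun P => (hξ.zero_iff P).mp)
  have hcard : Fintype.card {i : Fin n // i ≠ l₀} = n - 1 := by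
    rw [Fintype.card_subtype_compl, Fintype.card_fin]
    simp
  have huni : Unirational k K := by
    refine field_version (d - 2) (by rw [Fintype.card_fin]; exact hm) θ c s g hc0 ?_ ?_ ?_ ?_ ?_ _
      hind ?_
    · intro j
      rw [hd1, Polynomial.natDegree_le_iff_coeff_eq_zero]
      intro N hN
      simp only [g, Polynomial.coeff_add]
      rw [Polynomial.coeff_C, if_neg (by omega), add_zero]
      rcases Nat.lt_or_ge d N with h1 | h1
      · exact Polynomial.coeff_eq_zero_of_natDegree_lt ((natDegree_line_le hFK _ _).trans_lt h1)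
      · have h2 : N = d := by omega
        rw [h2, coeff_line_top hFK]
        simp only [FK, pK]
        rw [eval_map_alg, h0, map_zero]
    · intro j
      rw [hd1]
      simp only [g, Polynomial.coeff_add]
      rw [Polynomial.coeff_C, if_neg (by omega), add_zero, coeff_line_sub (by omega) hFK]
      exact hcc j
    · intro j i
      simp only [g, Polynomial.coeff_add]
      refine add_mem (coeff_line_mem hτL (p j) F i) ?_
      rw [Polynomial.coeff_C]
      split_ifs
      · exact add_mem (neg_mem haL) haL
      · exact add_mem (neg_mem haL) (zero_mem _)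
      · exact zero_mem _
    · have h1 := eval_separate hsepK τ s Finset.univ
      have h2 : eval (fun l => τ l + ∑ j, s j * pK j l) FK = 0 := by
        rw [← hzero]
        congr 2
        funext l
        exact (hξτ l).symm
      rw [h2] at h1
      simp only [g, Polynomial.eval_add, Polynomial.eval_C, eval_line]
      have h3 : ∀ j : Fin m, eval (fun l => τ l + s j * pK j l) FK + (-a + if j = z then a else 0) =
          (eval (fun l => τ l + s j * pK j l) FK - eval τ FK) + if j = z then a else 0 := by
        intro j
        simp only [a]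
        ring
      simp only [h3]
      rw [Finset.sum_add_distrib, Finset.sum_ite_eq' Finset.univ z, if_pos (Finset.mem_univ _)]
      rw [add_comm]
      exact h1.symm
    · rw [eq_top_iff, ← hξ.gen, adjoin_le_iff]
      rintro _ ⟨l, rfl⟩
      have h1 : L ≤ adjoin k (Set.range θ ∪ Set.range c ∪ Set.range s) :=
        adjoin.mono _ _ _ Set.subset_union_left
      rw [hξτ l]
      refine add_mem (h1 (hτL l)) (sum_mem fun j _ => mul_mem (subset_adjoin _ _ (Or.inr ⟨j, rfl⟩))
        (IntermediateField.algebraMap_mem _ _))
    · rw [Fintype.card_fin, Fintype.card_fin, hcard]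
      omega
  obtain ⟨N, ⟨ψ⟩⟩ := huni
  refine ⟨N, fun i => ψ (ξ i), fun G => ?_⟩
  rw [← hξ.zero_iff]
  have h1 : aeval (fun i => ψ (ξ i)) G = ψ (aeval ξ G) := by
    rw [MvPolynomial.comp_aeval_apply]
  rw [h1]
  exact map_eq_zero_iff ψ ψ.injective

end Pool.Agent.T9h4.SH
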