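import Pool.Agent.T9h4.SH.Form2

/-!
Hypersurfaces with separated directions are unirational.
-/

set_option autoImplicit false

open IntermediateField MvPolynomial

namespace Pool.Agent.T9h4.SH

open Pool.Agent.R867.H (GP exists_gp indep_of)

variable {k : Type} [Field k] {n m : ℕ}

theorem iterate_derivative_line {K : Type} [Field K] (F : MvPolynomial (Fin n) K) (y v : Fin n → K)
    (j : ℕ) : Polynomial.derivative^[j] (line F y v) = line ((dirDeriv v)^[j] F) y v := by
  induction j with
  | zero => rfl
  | succ j ih => rw [Function.iterate_succ_apply', ih, derivative_line, Function.iterate_succ_apply']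

theorem map_iterate_dirDeriv {K : Type} [Field K] (f : k →+* K) (v : Fin n → k)
    (F : MvPolynomial (Fin n) k) (j : ℕ) :
    map f ((dirDeriv v)^[j] F) = (dirDeriv fun l => f (v l))^[j] (map f F) := by
  induction j with
  | zero => rfl
  | succ j ih => rw [Function.iterate_succ_apply', map_dirDeriv, ih, Function.iterate_succ_apply']

theorem pderiv_comm2 (i j : Fin n) (F : MvPolynomial (Fin n) k) :
    pderiv i (pderiv j F) = pderiv j (pderiv i F) := by
  classical
  have h : ⁅(pderiv i : Derivation k (MvPolynomial (Fin n) k) (MvPolynomial (Fin n) k)),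
      (pderiv j : Derivation k (MvPolynomial (Fin n) k) (MvPolynomial (Fin n) k))⁆ = 0 := by
    refine MvPolynomial.derivation_ext fun l => ?_
    rw [Derivation.commutator_apply, pderiv_X, pderiv_X, Pi.single_apply, Pi.single_apply]
    split_ifs <;> simp
  have h1 := Derivation.congr_fun h F
  rw [Derivation.commutator_apply] at h1
  simpa [sub_eq_zero] using h1

theorem dirDeriv_comm (v w : Fin n → k) (F : MvPolynomial (Fin n) k) :
    dirDeriv v (dirDeriv w F) = dirDeriv w (dirDeriv v F) := by
  unfold dirDeriv
  simp only [map_sum, Finset.mul_sum]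
  rw [Finset.sum_comm]
  refine Finset.sum_congr rfl fun i _ => Finset.sum_congr rfl fun j _ => ?_
  rw [pderiv_C_mul, pderiv_C_mul, pderiv_comm2]
  ring

theorem dirDeriv_zero (v : Fin n → k) : dirDeriv v (0 : MvPolynomial (Fin n) k) = 0 := by
  unfold dirDeriv
  refine Finset.sum_eq_zero fun l _ => ?_
  rw [map_zero, mul_zero]

theorem dirDeriv_linear (v w : Fin n → k) (b : k) :
    dirDeriv v (C b + ∑ l, C (w l) * X l : MvPolynomial (Fin n) k) = C (∑ l, w l * v l) := by
  classical
  unfold dirDeriv
  rw [map_sum]
  refine Finset.sum_congr rfl fun l _ => ?_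
  rw [map_add, pderiv_C, zero_add, map_sum, Finset.sum_eq_single l]
  · rw [pderiv_C_mul, pderiv_X_self, mul_one, ← C_mul, mul_comm]
  · intro l' _ hl
    rw [pderiv_C_mul, pderiv_X_of_ne hl, mul_zero]
  · intro h
    exact absurd (Finset.mem_univ l) h

theorem line_degree {K : Type} [Field K] [CharZero K] {F : MvPolynomial (Fin n) K}
    {v : Fin n → K} {j : ℕ} (h : (dirDeriv v)^[j + 1] F = 0) (y : Fin n → K) :
    (line F y v).natDegree ≤ j := by
  rw [Polynomial.natDegree_le_iff_coeff_eq_zero]
  intro N hN
  have h1 := iterate_derivative_line F y v (j + 1)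
  rw [h] at h1
  have h2 : line (0 : MvPolynomial (Fin n) K) y v = 0 := by
    unfold line
    rw [map_zero]
  rw [h2] at h1
  have h3 := Polynomial.coeff_iterate_derivative (p := line F y v) (k := j + 1) (m := N - (j + 1))
  rw [h1, Polynomial.coeff_zero] at h3
  have h4 : N - (j + 1) + (j + 1) = N := by omega
  rw [h4, nsmul_eq_mul] at h3
  have h5 : (N.descFactorial (j + 1) : K) ≠ 0 := by
    rw [Nat.cast_ne_zero, Ne, Nat.descFactorial_eq_zero_iff_lt]
    omega
  exact (mul_eq_zero.1 h3.symm).resolve_left h5

theorem line_coeff {K : Type} [Field K] {F : MvPolynomial (Fin n) K}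
    {v : Fin n → K} (j : ℕ) (y : Fin n → K) :
    (j.factorial : K) * (line F y v).coeff j = eval y ((dirDeriv v)^[j] F) := by
  have h1 := iterate_derivative_line F y v j
  have h2 := Polynomial.coeff_iterate_derivative (p := line F y v) (k := j) (m := 0)
  rw [h1, zero_add, Nat.descFactorial_self, nsmul_eq_mul, Polynomial.coeff_zero_eq_eval_zero,
    eval_line] at h2
  rw [← h2]
  congr 2
  funext l
  ring

theorem iterate_sep {p q : Fin n → k} {F : MvPolynomial (Fin n) k}
    (h : dirDeriv q (dirDeriv p F) = 0) (j : ℕ) : dirDeriv q ((dirDeriv p)^[j + 1] F) = 0 := by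
  induction j with
  | zero => exact h
  | succ j ih => rw [Function.iterate_succ_apply', dirDeriv_comm, ih, dirDeriv_zero]

theorem totalDegree_pderiv_lt (f : MvPolynomial (Fin n) k) (i : Fin n) (h : pderiv i f ≠ 0) :
    (pderiv i f).totalDegree < f.totalDegree := by
  classical
  obtain ⟨m, hm, hdeg⟩ : ∃ m ∈ (pderiv i f).support,
      (pderiv i f).totalDegree = m.sum fun _ e => e := by
    have hne : (pderiv i f).support.Nonempty := by
      rw [Finset.nonempty_iff_ne_empty]
      intro h0
      exact h (support_eq_empty.mp h0)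
    obtain ⟨m, hm, h1⟩ := Finset.exists_mem_eq_sup (pderiv i f).support hne
      (fun s => s.sum fun _ e => e)
    exact ⟨m, hm, h1⟩
  rw [hdeg]
  rw [mem_support_iff, coeff_pderiv] at hm
  have h1 : m + Finsupp.single i 1 ∈ f.support := by
    rw [mem_support_iff]
    exact left_ne_zero_of_mul hm
  have h2 := le_totalDegree h1
  rw [Finsupp.sum_add_index' (fun _ => rfl) (fun _ _ _ => rfl),
    Finsupp.sum_single_index rfl] at h2
  omega

theorem totalDegree_dirDeriv {v : Fin n → k} {F : MvPolynomial (Fin n) k}
    (h : dirDeriv v F ≠ 0) : (dirDeriv v F).totalDegree + 1 ≤ F.totalDegree := by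
  have h1 : (dirDeriv v F).totalDegree ≤ F.totalDegree - 1 := by
    unfold dirDeriv
    refine totalDegree_finsetSum_le fun l _ => ?_
    refine (totalDegree_mul _ _).trans ?_
    rw [totalDegree_C, zero_add]
    by_cases h0 : pderiv l F = 0
    · rw [h0, totalDegree_zero]
      exact Nat.zero_le _
    · have := totalDegree_pderiv_lt F l h0
      omega
  have h2 : 1 ≤ F.totalDegree := by
    by_contra h3
    have h4 : F.totalDegree = 0 := by omega
    rw [totalDegree_eq_zero_iff_eq_C] at h4
    apply h
    rw [h4]
    unfold dirDeriv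
    refine Finset.sum_eq_zero fun l _ => ?_
    rw [pderiv_C, mul_zero]
  omega

theorem totalDegree_iterate_dirDeriv {v : Fin n → k} {F : MvPolynomial (Fin n) k} {j : ℕ}
    (h : (dirDeriv v)^[j] F ≠ 0) : ((dirDeriv v)^[j] F).totalDegree + j ≤ F.totalDegree := by
  induction j with
  | zero => simp
  | succ j ih =>
    rw [Function.iterate_succ_apply'] at h ⊢
    have h1 : (dirDeriv v)^[j] F ≠ 0 := by
      intro h0
      rw [h0, dirDeriv_zero] at h
      exact h rfl
    have h2 := ih h1
    have h3 := totalDegree_dirDeriv h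
    omega

theorem separated [CharZero k] {e : ℕ} {F : MvPolynomial (Fin n) k} (hirr : Irreducible F)
    (hm : 2 ^ e ≤ m) {p w : Fin m → Fin n → k} {b : Fin m → k}
    (hp : LinearIndependent k p) (hw : LinearIndependent k w)
    (hsep : ∀ i j, i ≠ j → dirDeriv (p i) (dirDeriv (p j) F) = 0)
    (htop : ∀ i, (dirDeriv (p i))^[e + 1] F = C (b i) + ∑ l, C (w i l) * X l)
    (hnext : ∀ i, (dirDeriv (p i))^[e + 2] F = 0) :
    ∃ (N : ℕ) (P : Fin n → FractionRing (MvPolynomial (Fin N) k)),
      ∀ G : MvPolynomial (Fin n) k, aeval P G = 0 ↔ F ∣ G := by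
  classical
  obtain ⟨K, _, _, ξ, hξ⟩ := exists_gp hirr
  have hcK : CharZero K := charZero_of_injective_algebraMap (algebraMap k K).injective
  obtain ⟨q, hq⟩ := exists_dual hp
  have hwp : ∀ i j, ∑ l, w i l * p j l = 0 := by
    intro i j
    have h1 : dirDeriv (p j) ((dirDeriv (p i))^[e + 1] F) = 0 := by
      by_cases hij : j = i
      · rw [hij, ← Function.iterate_succ_apply' (dirDeriv (p i)) (e + 1) F]
        exact hnext i
      · exact iterate_sep (hsep j i hij) e
    rw [htop, dirDeriv_linear] at h1
    exact C_injective _ _ (h1.trans C_0.symm)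
  obtain ⟨r, θ, hr, hθ⟩ := exists_forms ξ hw hwp hq
  have hfac : ((e + 1).factorial : K) ≠ 0 := by
    rw [Nat.cast_ne_zero]
    exact Nat.factorial_ne_zero _
  let c : Fin m → K := fun j =>
    (algebraMap k K (b j) + lin ξ (w j)) / ((e + 1).factorial : K)
  let s : Fin m → K := fun j => lin ξ (q j)
  let pK : Fin m → Fin n → K := fun j l => algebraMap k K (p j l)
  let τ : Fin n → K := fun l => ξ l - ∑ j, s j * pK j l
  set L := adjoin k (Set.range θ ∪ Set.range c) with hL
  have hfacL : ((e + 1).factorial : K) ∈ L := _root_.natCast_mem _ _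
  have hwL : ∀ j, lin ξ (w j) ∈ L := by
    intro j
    have h1 : lin ξ (w j) = c j * ((e + 1).factorial : K) - algebraMap k K (b j) := by
      simp only [c]
      rw [div_mul_cancel₀ _ hfac]
      ring
    rw [h1]
    exact sub_mem (mul_mem (subset_adjoin _ _ (Or.inr ⟨j, rfl⟩)) hfacL)
      (IntermediateField.algebraMap_mem _ _)
  replace hθ : ∀ v : Fin n → k, (∀ j, ∑ l, v l * p j l = 0) → lin ξ v ∈ L := by
    intro v hv
    have h1 : adjoin k (Set.range θ ∪ Set.range fun j => lin ξ (w j)) ≤ L := by
      rw [adjoin_le_iff]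
      rintro x (hx | ⟨j, rfl⟩)
      · exact subset_adjoin _ _ (Or.inl hx)
      · exact hwL j
    exact h1 (hθ v hv)
  -- the coordinates `τ`
  have hτL : ∀ l, τ l ∈ L := by
    intro l
    have h1 : τ l = lin ξ (Pi.single l 1 - ∑ j, p j l • q j) := by
      rw [map_sub, map_sum]
      simp only [τ]
      congr 1
      · rw [lin_apply, Finset.sum_eq_single l]
        · rw [Pi.single_eq_same, map_one, one_mul]
        · intro l' _ hl
          rw [Pi.single_eq_of_ne hl, map_zero, zero_mul]
        · intro h
          exact absurd (Finset.mem_univ l) h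
      · refine Finset.sum_congr rfl fun j _ => ?_
        rw [map_smul, Algebra.smul_def, mul_comm]
    rw [h1]
    refine hθ _ fun i => ?_
    have h2 : ∑ l', (Pi.single l 1 - ∑ j, p j l • q j : Fin n → k) l' * p i l' =
        ∑ l', (Pi.single l 1 : Fin n → k) l' * p i l' -
          ∑ j, p j l * ∑ l', q j l' * p i l' := by
      have h3 : ∀ l', (Pi.single l 1 - ∑ j, p j l • q j : Fin n → k) l' * p i l' =
          (Pi.single l 1 : Fin n → k) l' * p i l' - ∑ j, p j l * (q j l' * p i l') := by
        intro l'
        rw [Pi.sub_apply, Finset.sum_apply, sub_mul, Finset.sum_mul]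
        congr 1
        refine Finset.sum_congr rfl fun j _ => ?_
        rw [Pi.smul_apply, smul_eq_mul, mul_assoc]
      simp only [h3]
      rw [Finset.sum_sub_distrib, Finset.sum_comm]
      simp only [Finset.mul_sum]
    rw [h2, Finset.sum_eq_single l]
    · simp only [hq]
      simp
    · intro l' _ hl
      rw [Pi.single_eq_of_ne hl, zero_mul]
    · intro h
      exact absurd (Finset.mem_univ l) h
  have hξτ : ∀ l, ξ l = τ l + ∑ j, s j * pK j l := by
    intro l
    simp only [τ]
    ring
  let FK := map (algebraMap k K) F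
  have hsepK : ∀ i j, i ≠ j → dirDeriv (pK i) (dirDeriv (pK j) FK) = 0 := by
    intro i j hij
    have h1 := map_dirDeriv (algebraMap k K) (p i) (dirDeriv (p j) F)
    rw [hsep i j hij, map_zero, map_dirDeriv] at h1
    exact h1.symm
  have hzero : eval ξ FK = 0 := by
    rw [eval_map, ← aeval_def]
    exact (hξ.zero_iff F).2 dvd_rfl
  have hm0 : 0 < m := lt_of_lt_of_le (by positivity) hm
  let z : Fin m := ⟨0, hm0⟩
  let a : K := eval τ FK
  have haL : a ∈ L := by
    have h1 := coeff_line_mem hτL (p z) F 0
    rw [Polynomial.coeff_zero_eq_eval_zero, eval_line] at h1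
    have h2 : eval (fun l => τ l + 0 * algebraMap k K (p z l)) (map (algebraMap k K) F) = a := by
      congr 2
      funext l
      ring
    rwa [h2] at h1
  let g : Fin m → Polynomial K := fun j =>
    line FK τ (pK j) + Polynomial.C (-a + if j = z then a else 0)
  have hwτ : ∀ j, ∑ l, algebraMap k K (w j l) * τ l = lin ξ (w j) := by
    intro j
    simp only [τ]
    have h2 : ∀ l, algebraMap k K (w j l) * (ξ l - ∑ i, s i * pK i l) =
        algebraMap k K (w j l) * ξ l - ∑ i, s i * algebraMap k K (w j l * p i l) := by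
      intro l
      rw [mul_sub, Finset.mul_sum]
      congr 1
      refine Finset.sum_congr rfl fun i _ => ?_
      simp only [pK, map_mul]
      ring
    simp only [h2]
    rw [Finset.sum_sub_distrib, Finset.sum_comm]
    simp only [← Finset.mul_sum, ← map_sum, hwp, map_zero, mul_zero, Finset.sum_const_zero,
      sub_zero]
    rw [lin_apply]
  have hcc : ∀ j, (line FK τ (pK j)).coeff (e + 1) = c j := by
    intro j
    have h1 := line_coeff (F := FK) (v := pK j) (e + 1) τ
    have h2 := map_iterate_dirDeriv (algebraMap k K) (p j) F (e + 1)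
    rw [htop] at h2
    have h3 : (dirDeriv (pK j))^[e + 1] FK =
        map (algebraMap k K) (C (b j) + ∑ l, C (w j l) * X l) := h2.symm
    rw [h3] at h1
    simp only [map_add, map_sum, map_mul, map_C, map_X, eval_C, eval_X] at h1
    rw [hwτ] at h1
    simp only [c]
    rw [eq_div_iff hfac, mul_comm]
    exact h1
  have hc0 : ∀ j, c j ≠ 0 := by
    intro j hj
    have h0 : algebraMap k K (b j) + lin ξ (w j) = 0 := by
      simp only [c] at hj
      exact (div_eq_zero_iff.1 hj).resolve_right hfac
    have h1 : aeval ξ ((dirDeriv (p j))^[e + 1] F) = 0 := by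
      rw [htop, ← h0, map_add, aeval_C, lin_apply, map_sum]
      congr 1
      refine Finset.sum_congr rfl fun l _ => ?_
      rw [map_mul, aeval_C, aeval_X]
    have h2 : F ∣ (dirDeriv (p j))^[e + 1] F := (hξ.zero_iff _).1 h1
    have h3 : (dirDeriv (p j))^[e + 1] F ≠ 0 := by
      intro h4
      rw [htop] at h4
      apply hw.ne_zero j
      funext l
      have h5 := congrArg (pderiv l) h4
      rw [map_add, pderiv_C, zero_add, map_sum, Finset.sum_eq_single l] at h5
      · rw [pderiv_C_mul, pderiv_X_self, mul_one, map_zero] at h5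
        exact C_injective _ _ (h5.trans C_0.symm)
      · intro l' _ hl
        rw [pderiv_C_mul, pderiv_X_of_ne hl, mul_zero]
      · intro h
        exact absurd (Finset.mem_univ l) h
    have h4 := totalDegree_le_of_dvd_of_isDomain h2 h3
    have h5 : ((dirDeriv (p j))^[e + 1] F).totalDegree + (e + 1) ≤ F.totalDegree :=
      totalDegree_iterate_dirDeriv h3
    omega
  -- an independent family
  have hn1 : ∃ l, degreeOf l F ≠ 0 := by
    by_contra hcon
    push Not at hcon
    have h1 : F.totalDegree = 0 := by
      rw [totalDegree_eq_zero_iff]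
      intro mm hmm l
      have h2 := monomial_le_degreeOf l hmm
      rw [hcon l] at h2
      omega
    rw [totalDegree_eq_zero_iff_eq_C] at h1
    have h2 : IsUnit F := by
      rw [h1]
      refine IsUnit.map C (isUnit_iff_ne_zero.2 fun h3 => hirr.ne_zero ?_)
      rw [h1, h3, C_0]
    exact hirr.not_isUnit h2
  obtain ⟨l₀, hl₀⟩ := hn1
  have hind := indep_of hirr.ne_zero hl₀ (fun P => (hξ.zero_iff P).mp)
  have hcard : Fintype.card {i : Fin n // i ≠ l₀} = n - 1 := by
    rw [Fintype.card_subtype_compl, Fintype.card_fin]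
    simp
  have huni : Unirational k K := by
    refine field_version e (by rw [Fintype.card_fin]; exact hm) θ c s g hc0 ?_ ?_ ?_ ?_ ?_ _
      hind ?_
    · intro j
      refine (Polynomial.natDegree_add_le _ _).trans (max_le (line_degree ?_ _) ?_)
      · have h1 := map_iterate_dirDeriv (algebraMap k K) (p j) F (e + 2)
        rw [hnext, map_zero] at h1
        exact h1.symm
      · rw [Polynomial.natDegree_C]
        omega
    · intro j
      simp only [g, Polynomial.coeff_add]
      rw [Polynomial.coeff_C, if_neg (by omega), add_zero]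
      exact hcc j
    · intro j i
      simp only [g, Polynomial.coeff_add]
      refine add_mem (coeff_line_mem hτL (p j) F i) ?_
      rw [Polynomial.coeff_C]
      split_ifs
      · exact add_mem (neg_mem haL) haL
      · exact add_mem (neg_mem haL) (zero_mem _)
      · exact zero_mem _
    · have h1 := eval_separate hsepK τ s Finset.univ
      have h2 : eval (fun l => τ l + ∑ j, s j * pK j l) FK = 0 := by
        rw [← hzero]
        congr 2
        funext l
        exact (hξτ l).symm
      rw [h2] at h1
      simp only [g, Polynomial.eval_add, Polynomial.eval_C, eval_line]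
      have h3 : ∀ j : Fin m, eval (fun l => τ l + s j * pK j l) FK + (-a + if j = z then a else 0) =
          (eval (fun l => τ l + s j * pK j l) FK - eval τ FK) + if j = z then a else 0 := by
        intro j
        simp only [a]
        ring
      simp only [h3]
      rw [Finset.sum_add_distrib, Finset.sum_ite_eq' Finset.univ z, if_pos (Finset.mem_univ _)]
      rw [add_comm]
      exact h1.symm
    · rw [eq_top_iff, ← hξ.gen, adjoin_le_iff]
      rintro _ ⟨l, rfl⟩
      have h1 : L ≤ adjoin k (Set.range θ ∪ Set.range c ∪ Set.range s) :=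
        adjoin.mono _ _ _ Set.subset_union_left
      rw [hξτ l]
      refine add_mem (h1 (hτL l)) (sum_mem fun j _ => mul_mem (subset_adjoin _ _ (Or.inr ⟨j, rfl⟩))
        (IntermediateField.algebraMap_mem _ _))
    · rw [Fintype.card_fin, Fintype.card_fin, hcard]
      omega
  obtain ⟨N, ⟨ψ⟩⟩ := huni
  refine ⟨N, fun i => ψ (ξ i), fun G => ?_⟩
  rw [← hξ.zero_iff]
  have h1 : aeval (fun i => ψ (ξ i)) G = ψ (aeval ξ G) := by
    rw [MvPolynomial.comp_aeval_apply]
  rw [h1]
  exact map_eq_zero_iff ψ ψ.injective

end Pool.Agent.T9h4.SH
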