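import Pool.Agent.T9h4.SH.Ind

/-!
More polynomials than necessary; function fields.
-/

set_option autoImplicit false

open IntermediateField Polynomial Cardinal

namespace Pool.Agent.T9h4.SH

variable {k Ω : Type} [Field k] [Field Ω] [Algebra k Ω]

theorem core_ge [CharZero Ω] [IsAlgClosed Ω] (e : ℕ) {ι κ : Type} [Fintype ι] [Fintype κ]
    (hκ : 2 ^ e ≤ Fintype.card κ) (θ : ι → Ω) (c s : κ → Ω) (g : κ → Polynomial Ω)
    (hc : ∀ j, c j ≠ 0) (hdeg : ∀ j, (g j).natDegree ≤ e + 1)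
    (hlead : ∀ j, (g j).coeff (e + 1) = c j)
    (hg : ∀ j i, (g j).coeff i ∈ adjoin k (Set.range θ ∪ Set.range c))
    (heq : ∑ j, (g j).eval (s j) = 0)
    (htr : TR (adjoin k (Set.range θ ∪ Set.range c ∪ Set.range s))
      (Fintype.card ι + 2 * Fintype.card κ - 1)) :
    Pure (adjoin k (Set.range θ ∪ Set.range c ∪ Set.range s)) := by
  classical
  obtain ⟨r, hr⟩ := Nat.exists_eq_add_of_le hκ
  have hcard : Fintype.card (Fin (2 ^ e) ⊕ Fin r) = Fintype.card κ := by
    rw [Fintype.card_sum, Fintype.card_fin, Fintype.card_fin, hr]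
  let σ : Fin (2 ^ e) ⊕ Fin r ≃ κ := Fintype.equivOfCardEq hcard
  have hpos : 0 < 2 ^ e := by positivity
  let z : Fin (2 ^ e) := ⟨0, hpos⟩
  let θ' : ι ⊕ (Fin r ⊕ Fin r) → Ω :=
    Sum.elim θ (Sum.elim (fun j => c (σ (Sum.inr j))) (fun j => s (σ (Sum.inr j))))
  let c' : Fin (2 ^ e) → Ω := fun j => c (σ (Sum.inl j))
  let s' : Fin (2 ^ e) → Ω := fun j => s (σ (Sum.inl j))
  let a : Ω := ∑ j, (g (σ (Sum.inr j))).eval (s (σ (Sum.inr j)))
  let g' : Fin (2 ^ e) → Polynomial Ω := fun j => g (σ (Sum.inl j)) + C (if j = z then a else 0)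
  set L1 := adjoin k (Set.range θ' ∪ Set.range c') with hL1
  have hL01 : adjoin k (Set.range θ ∪ Set.range c) ≤ L1 := by
    rw [adjoin_le_iff]
    rintro x (⟨i, rfl⟩ | ⟨l, rfl⟩)
    · exact subset_adjoin _ _ (Or.inl ⟨Sum.inl i, rfl⟩)
    · obtain ⟨(j | j), rfl⟩ := σ.surjective l
      · exact subset_adjoin _ _ (Or.inr ⟨j, rfl⟩)
      · exact subset_adjoin _ _ (Or.inl ⟨Sum.inr (Sum.inl j), rfl⟩)
  have hL : adjoin k (Set.range θ ∪ Set.range c ∪ Set.range s) ≤
      adjoin k (Set.range θ' ∪ Set.range c' ∪ Set.range s') := by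
    rw [adjoin_le_iff]
    rintro x (hx | ⟨l, rfl⟩)
    · exact adjoin.mono _ _ _ Set.subset_union_left (hL01 (subset_adjoin _ _ hx))
    · obtain ⟨(j | j), rfl⟩ := σ.surjective l
      · exact subset_adjoin _ _ (Or.inr ⟨j, rfl⟩)
      · exact subset_adjoin _ _ (Or.inl (Or.inl ⟨Sum.inr (Sum.inr j), rfl⟩))
  have haL : a ∈ L1 := by
    refine sum_mem fun j _ => ?_
    rw [eval_eq_sum_range]
    refine sum_mem fun i _ => mul_mem (hL01 (hg _ _)) (pow_mem ?_ _)
    exact subset_adjoin _ _ (Or.inl ⟨Sum.inr (Sum.inr j), rfl⟩)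
  refine Pure.mono hL (core e (by simp) θ' c' s' g' (fun j => hc _) (fun j => ?_) (fun j => ?_)
    (fun j i => ?_) ?_ ?_)
  · refine (natDegree_add_le _ _).trans (max_le (hdeg _) ?_)
    rw [natDegree_C]
    omega
  · simp only [g', coeff_add, hlead, c', coeff_C_succ, add_zero]
  · simp only [g', coeff_add]
    refine add_mem (hL01 (hg _ _)) ?_
    rw [coeff_C]
    split_ifs
    · exact haL
    · exact zero_mem _
    · exact zero_mem _
  · simp only [g', eval_add, eval_C, s']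
    rw [Finset.sum_add_distrib, Finset.sum_ite_eq' Finset.univ z, if_pos (Finset.mem_univ _),
      ← heq, ← Equiv.sum_comp σ, Fintype.sum_sum_type]
  · have h3 := htr.mono hL
    have h4 : Fintype.card (ι ⊕ (Fin r ⊕ Fin r)) + 2 * Fintype.card (Fin (2 ^ e)) - 1 =
        Fintype.card ι + 2 * Fintype.card κ - 1 := by
      rw [Fintype.card_sum, Fintype.card_sum, Fintype.card_fin, Fintype.card_fin, hr]
      omega
    rw [h4]
    exact h3

/-- `K` embeds over `k` in a field of rational functions: the variety is unirational -/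
def Unirational (k K : Type) [Field k] [Field K] [Algebra k K] : Prop :=
  ∃ N : ℕ, Nonempty (K →ₐ[k] FractionRing (MvPolynomial (Fin N) k))

theorem Pure.embeds {L : IntermediateField k Ω} (h : Pure L) : Unirational k L := by
  obtain ⟨N, u, hu, hL⟩ := h
  exact ⟨N, ⟨(hu.aevalEquivField.symm.toAlgHom).comp (inclusion hL)⟩⟩

theorem Unirational.of_hom {K K' : Type} [Field K] [Algebra k K] [Field K'] [Algebra k K']
    (f : K →ₐ[k] K') (h : Unirational k K') : Unirational k K := by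
  obtain ⟨N, ⟨ψ⟩⟩ := h
  exact ⟨N, ⟨ψ.comp f⟩⟩

theorem TR_of_indep {ι : Type} [Fintype ι] {f : ι → Ω} (hf : AlgebraicIndependent k f)
    {L : IntermediateField k Ω} (h : ∀ i, f i ∈ L) : TR L (Fintype.card ι) :=
  ⟨f ∘ (Fintype.equivFin ι).symm, hf.comp _ (Equiv.injective _), fun _ => h _⟩

/-- the function field version -/
theorem field_version [CharZero k] {K : Type} [Field K] [Algebra k K] (e : ℕ) {ι κ τ : Type}
    [Fintype ι] [Fintype κ] [Fintype τ]
    (hκ : 2 ^ e ≤ Fintype.card κ) (θ : ι → K) (c s : κ → K) (g : κ → Polynomial K)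
    (hc : ∀ j, c j ≠ 0) (hdeg : ∀ j, (g j).natDegree ≤ e + 1)
    (hlead : ∀ j, (g j).coeff (e + 1) = c j)
    (hg : ∀ j i, (g j).coeff i ∈ adjoin k (Set.range θ ∪ Set.range c))
    (heq : ∑ j, (g j).eval (s j) = 0)
    (hgen : adjoin k (Set.range θ ∪ Set.range c ∪ Set.range s) = ⊤)
    (f : τ → K) (hf : AlgebraicIndependent k f)
    (hτ : Fintype.card ι + 2 * Fintype.card κ ≤ Fintype.card τ + 1) :
    Unirational k K := by
  classical
  let Ω := AlgebraicClosure K
  have hΩ : CharZero Ω := charZero_of_injective_algebraMap (algebraMap k Ω).injective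
  let φ : K →ₐ[k] Ω := IsScalarTower.toAlgHom k K Ω
  have hφ : Function.Injective φ := φ.injective
  have hmap : ∀ S : Set K, (adjoin k S).map φ = adjoin k (φ '' S) := fun S => adjoin_map _ _ _
  have hr1 : ∀ {α : Type} (u : α → K), Set.range (φ ∘ u) = φ '' Set.range u :=
    fun u => Set.range_comp _ _
  have hP : Pure (adjoin k (Set.range (φ ∘ θ) ∪ Set.range (φ ∘ c) ∪ Set.range (φ ∘ s))) := by
    refine core_ge e hκ (φ ∘ θ) (φ ∘ c) (φ ∘ s) (fun j => (g j).map (φ : K →+* Ω)) ?_ ?_ ?_ ?_ ?_ ?_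
    · intro j h0
      exact hc j (hφ (by rw [map_zero]; exact h0))
    · intro j
      rw [natDegree_map]
      exact hdeg j
    · intro j
      rw [coeff_map, hlead]
      rfl
    · intro j i
      rw [coeff_map, hr1, hr1, ← Set.image_union, ← hmap]
      exact ⟨_, hg j i, rfl⟩
    · have h1 : ∀ j, ((g j).map (φ : K →+* Ω)).eval ((φ ∘ s) j) = φ ((g j).eval (s j)) := by
        intro j
        rw [Function.comp_apply]
        exact eval_map_apply (φ : K →+* Ω) (s j)
      simp only [h1]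
      rw [← map_sum, heq, map_zero]
    · rw [hr1, hr1, hr1, ← Set.image_union, ← Set.image_union, ← hmap, hgen]
      have h1 : TR ((⊤ : IntermediateField k K).map φ) (Fintype.card τ) :=
        TR_of_indep (f := φ ∘ f) (hf.map' hφ) fun i => ⟨f i, trivial, rfl⟩
      obtain ⟨u, hu, huL⟩ := h1
      have h2 : Fintype.card ι + 2 * Fintype.card κ - 1 ≤ Fintype.card τ := by omega
      exact ⟨u ∘ Fin.castLE h2, hu.comp _ (Fin.castLE_injective h2), fun i => huL _⟩
  have hmem : ∀ x : K, φ x ∈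
      (adjoin k (Set.range (φ ∘ θ) ∪ Set.range (φ ∘ c) ∪ Set.range (φ ∘ s))).toSubalgebra := by
    intro x
    have h1 : x ∈ adjoin k (Set.range θ ∪ Set.range c ∪ Set.range s) := by
      rw [hgen]
      trivial
    change φ x ∈ adjoin k (Set.range (φ ∘ θ) ∪ Set.range (φ ∘ c) ∪ Set.range (φ ∘ s))
    rw [hr1, hr1, hr1, ← Set.image_union, ← Set.image_union, ← hmap]
    exact ⟨x, h1, rfl⟩
  exact Unirational.of_hom (AlgHom.codRestrict φ _ hmem) hP.embeds

end Pool.Agent.T9h4.SH
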