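import Pool.Agent.T9h4.SH.Core

/-!
The induction: `2 ^ e` polynomials of degree `e + 1`.
-/

set_option autoImplicit false

open IntermediateField Polynomial

namespace Pool.Agent.T9h4.SH

variable {k Ω : Type} [Field k] [Field Ω] [Algebra k Ω]

/-- not two of the `s` are in the field of the coefficients -/
theorem not_both {ι κ : Type} [Fintype ι] [Fintype κ] (θ : ι → Ω) (c s : κ → Ω) {i j : κ}
    (hij : i ≠ j) (hi : s i ∈ adjoin k (Set.range θ ∪ Set.range c))
    (hj : s j ∈ adjoin k (Set.range θ ∪ Set.range c))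
    (htr : TR (adjoin k (Set.range θ ∪ Set.range c ∪ Set.range s))
      (Fintype.card ι + 2 * Fintype.card κ - 1)) : False := by
  classical
  let T := {l : κ // l ≠ i ∧ l ≠ j}
  let f : ι ⊕ (κ ⊕ T) → Ω := Sum.elim θ (Sum.elim c fun l => s l.1)
  have hf : Set.range f = Set.range θ ∪ (Set.range c ∪ Set.range fun l : T => s l.1) := by
    simp only [f, Set.Sum.elim_range]
  have h0 : adjoin k (Set.range θ ∪ Set.range c) ≤ adjoin k (Set.range f) := by
    apply adjoin.mono
    rw [hf, ← Set.union_assoc]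
    exact Set.subset_union_left
  have h1 : adjoin k (Set.range θ ∪ Set.range c ∪ Set.range s) ≤ adjoin k (Set.range f) := by
    rw [adjoin_le_iff]
    rintro x (hx | ⟨l, rfl⟩)
    · exact h0 (subset_adjoin _ _ hx)
    · by_cases h1 : l = i
      · rw [h1]
        exact h0 hi
      by_cases h2 : l = j
      · rw [h2]
        exact h0 hj
      exact subset_adjoin _ _ ⟨Sum.inr (Sum.inr ⟨l, h1, h2⟩), rfl⟩
  have h2 := (htr.mono h1).le_card
  rw [Fintype.card_sum, Fintype.card_sum] at h2
  have h3 : Fintype.card T + 2 = Fintype.card κ := by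
    rw [Fintype.card_subtype]
    have h4 : (Finset.univ.filter fun l : κ => l ≠ i ∧ l ≠ j) =
        (Finset.univ.erase i).erase j := by
      ext l
      simp [and_comm]
    rw [h4, Finset.card_erase_of_mem (by simp [hij.symm]), Finset.card_erase_of_mem (by simp),
      Finset.card_univ]
    have h5 : 2 ≤ Fintype.card κ := by
      rw [← Finset.card_univ, ← Finset.card_pair hij]
      exact Finset.card_le_card (Finset.subset_univ _)
    omega
  omega

theorem core_zero [CharZero Ω] {ι κ : Type} [Fintype ι] [Fintype κ]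
    (hκ : Fintype.card κ = 1) (θ : ι → Ω) (c s : κ → Ω) (g : κ → Polynomial Ω)
    (hc : ∀ j, c j ≠ 0) (hdeg : ∀ j, (g j).natDegree ≤ 1) (hlead : ∀ j, (g j).coeff 1 = c j)
    (hg : ∀ j i, (g j).coeff i ∈ adjoin k (Set.range θ ∪ Set.range c))
    (heq : ∑ j, (g j).eval (s j) = 0)
    (htr : TR (adjoin k (Set.range θ ∪ Set.range c ∪ Set.range s))
      (Fintype.card ι + 2 * Fintype.card κ - 1)) :
    Pure (adjoin k (Set.range θ ∪ Set.range c ∪ Set.range s)) := by
  classical
  obtain ⟨j, hj⟩ := Fintype.card_eq_one_iff.1 hκ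
  have h1 : s j = -(g j).coeff 0 / c j := by
    have h2 : ∑ l, (g l).eval (s l) = (g j).eval (s j) := by
      refine Fintype.sum_eq_single j fun l hl => absurd (hj l) hl
    rw [h2, eq_X_add_C_of_natDegree_le_one (hdeg j), hlead, eval_add, eval_mul, eval_C, eval_X,
      eval_C] at heq
    rw [eq_div_iff (hc j)]
    linear_combination heq
  have h2 : s j ∈ adjoin k (Set.range θ ∪ Set.range c) := by
    rw [h1]
    exact div_mem (neg_mem (hg j 0)) (subset_adjoin _ _ (Or.inr ⟨j, rfl⟩))
  have hf : Set.range (Sum.elim θ c) = Set.range θ ∪ Set.range c := Set.Sum.elim_range _ _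
  have h3 : adjoin k (Set.range θ ∪ Set.range c ∪ Set.range s) ≤
      adjoin k (Set.range (Sum.elim θ c)) := by
    rw [adjoin_le_iff, hf]
    rintro x (hx | ⟨l, rfl⟩)
    · exact subset_adjoin _ _ hx
    · rw [hj l]
      exact h2
  refine Pure.of_family (Sum.elim θ c) (TR.indep _ ?_) h3
  have h4 := htr.mono h3
  rw [Fintype.card_sum]
  have h5 : Fintype.card ι + 2 * Fintype.card κ - 1 = Fintype.card ι + Fintype.card κ := by omega
  rwa [h5] at h4

theorem core [CharZero Ω] [IsAlgClosed Ω] (e : ℕ) : ∀ {ι κ : Type} [Fintype ι] [Fintype κ]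
    (_ : Fintype.card κ = 2 ^ e) (θ : ι → Ω) (c s : κ → Ω) (g : κ → Polynomial Ω)
    (_ : ∀ j, c j ≠ 0) (_ : ∀ j, (g j).natDegree ≤ e + 1)
    (_ : ∀ j, (g j).coeff (e + 1) = c j)
    (_ : ∀ j i, (g j).coeff i ∈ adjoin k (Set.range θ ∪ Set.range c))
    (_ : ∑ j, (g j).eval (s j) = 0)
    (_ : TR (adjoin k (Set.range θ ∪ Set.range c ∪ Set.range s))
      (Fintype.card ι + 2 * Fintype.card κ - 1)),
    Pure (adjoin k (Set.range θ ∪ Set.range c ∪ Set.range s)) := by
  induction e with
  | zero =>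
    intro ι κ _ _ hκ θ c s g hc hdeg hlead hg heq htr
    exact core_zero (by simpa using hκ) θ c s g hc (by simpa using hdeg) (by simpa using hlead) hg
      heq htr
  | succ e ih =>
    intro ι κ _ _ hκ θ c s g hc hdeg hlead hg heq htr
    classical
    let κ' := Fin (2 ^ e)
    have hcard : Fintype.card (κ' ⊕ κ') = Fintype.card κ := by
      rw [Fintype.card_sum, Fintype.card_fin, hκ, pow_succ]
      ring
    let σ : κ' ⊕ κ' ≃ κ := Fintype.equivOfCardEq hcard
    set L0 := adjoin k (Set.range θ ∪ Set.range c) with hL0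
    -- choice of the roots
    have hroot : ∀ j : κ', ∃ ω : Ω, ω ≠ 0 ∧
        c (σ (Sum.inl j)) + ω ^ (e + 1 + 1) * c (σ (Sum.inr j)) = 0 ∧
        (g (σ (Sum.inl j))).coeff (e + 1) + ω ^ (e + 1) * ((g (σ (Sum.inr j))).coeff (e + 1) +
          ((e + 1 : ℕ) + 1) * c (σ (Sum.inr j)) *
            (s (σ (Sum.inr j)) - ω * s (σ (Sum.inl j)))) ≠ 0 := by
      intro j
      refine exists_root (e + 1) (by omega) (hc _) ?_ (hc _)
      rintro ⟨h1, h2⟩
      have h3 : ∀ (l : κ) , ((e + 1 : ℕ) + 1) * c l * s l + (g l).coeff (e + 1) = 0 →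
          s l ∈ L0 := by
        intro l hl
        have h4 : ((e + 1 : ℕ) + 1 : Ω) ≠ 0 := by exact_mod_cast Nat.succ_ne_zero (e + 1)
        have h5 : s l = -(g l).coeff (e + 1) / (((e + 1 : ℕ) + 1) * c l) := by
          rw [eq_div_iff (mul_ne_zero h4 (hc l))]
          linear_combination hl
        rw [h5]
        refine div_mem (neg_mem (hg l _)) (mul_mem ?_ (subset_adjoin _ _ (Or.inr ⟨l, rfl⟩)))
        exact add_mem (_root_.natCast_mem _ _) (one_mem _)
      refine not_both θ c s (i := σ (Sum.inl j)) (j := σ (Sum.inr j)) ?_ (h3 _ h1) (h3 _ h2) htr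
      intro h
      have := σ.injective h
      simp at this
    choose ω hω0 hω1 hω2 using hroot
    let c0 : κ' → Ω := fun j => c (σ (Sum.inl j))
    let c1 : κ' → Ω := fun j => c (σ (Sum.inr j))
    let s0 : κ' → Ω := fun j => s (σ (Sum.inl j))
    let t : κ' → Ω := fun j => s (σ (Sum.inr j)) - ω j * s (σ (Sum.inl j))
    let a0 : κ' → Ω := fun j => (g (σ (Sum.inl j))).coeff (e + 1)
    let a1 : κ' → Ω := fun j => (g (σ (Sum.inr j))).coeff (e + 1)
    let c' : κ' → Ω := fun j => a0 j + ω j ^ (e + 1) * (a1 j + ((e + 1 : ℕ) + 1) * c1 j * t j)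
    let θ' : ι ⊕ (κ' ⊕ κ') → Ω := Sum.elim θ (Sum.elim ω c1)
    let h : κ' → Polynomial Ω := fun j =>
      g (σ (Sum.inl j)) + (g (σ (Sum.inr j))).comp (C (ω j) * X + C (t j))
    set L1 := adjoin k (Set.range θ' ∪ Set.range c') with hL1
    have hθ' : Set.range θ' = Set.range θ ∪ (Set.range ω ∪ Set.range c1) := by
      simp only [θ', Set.Sum.elim_range]
    have hωL : ∀ j, ω j ∈ L1 := fun j => subset_adjoin _ _ (Or.inl ⟨Sum.inr (Sum.inl j), rfl⟩)
    have hc1L : ∀ j, c1 j ∈ L1 := fun j => subset_adjoin _ _ (Or.inl ⟨Sum.inr (Sum.inr j), rfl⟩)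
    have hc'L : ∀ j, c' j ∈ L1 := fun j => subset_adjoin _ _ (Or.inr ⟨j, rfl⟩)
    have hcL : ∀ l, c l ∈ L1 := by
      intro l
      obtain ⟨(j | j), rfl⟩ := σ.surjective l
      · have h1 : c (σ (Sum.inl j)) = -(ω j ^ (e + 1 + 1) * c1 j) := by
          linear_combination hω1 j
        rw [h1]
        exact neg_mem (mul_mem (pow_mem (hωL j) _) (hc1L j))
      · exact hc1L j
    have hL01 : L0 ≤ L1 := by
      rw [hL0, adjoin_le_iff]
      rintro x (⟨i, rfl⟩ | ⟨l, rfl⟩)
      · exact subset_adjoin _ _ (Or.inl ⟨Sum.inl i, rfl⟩)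
      · exact hcL l
    have hne : ((e + 1 : ℕ) + 1 : Ω) ≠ 0 := by exact_mod_cast Nat.succ_ne_zero (e + 1)
    have hneL : ((e + 1 : ℕ) + 1 : Ω) ∈ L1 := add_mem (_root_.natCast_mem _ _) (one_mem _)
    have htL : ∀ j, t j ∈ L1 := by
      intro j
      have h1 : ω j ^ (e + 1) * (((e + 1 : ℕ) + 1) * c1 j) ≠ 0 :=
        mul_ne_zero (pow_ne_zero _ (hω0 j)) (mul_ne_zero hne (hc _))
      have h2 : t j = (c' j - a0 j - ω j ^ (e + 1) * a1 j) /
          (ω j ^ (e + 1) * (((e + 1 : ℕ) + 1) * c1 j)) := by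
        rw [eq_div_iff h1]
        simp only [c']
        ring
      rw [h2]
      refine div_mem (sub_mem (sub_mem (hc'L j) (hL01 (hg _ _)))
        (mul_mem (pow_mem (hωL j) _) (hL01 (hg _ _)))) ?_
      exact mul_mem (pow_mem (hωL j) _) (mul_mem hneL (hc1L j))
    have hhL : ∀ j i, (h j).coeff i ∈ L1 := by
      intro j i
      simp only [h, coeff_add]
      exact add_mem (hL01 (hg _ _)) (coeff_comp_mem (fun i => hL01 (hg _ i)) (hωL j) (htL j) i)
    have hlead' : ∀ j, (h j).coeff (e + 1) = c' j := by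
      intro j
      simp only [h, coeff_add, c', a0, a1, c1]
      rw [coeff_comp_lin, eval_hasse_sub _ _ (hdeg _), hlead]
    have hdeg' : ∀ j, (h j).natDegree ≤ e + 1 := by
      intro j
      rw [natDegree_le_iff_coeff_eq_zero]
      intro N hN
      rcases Nat.lt_or_ge (e + 1 + 1) N with h1 | h1
      · simp only [h, coeff_add]
        rw [coeff_eq_zero_of_natDegree_lt ((hdeg _).trans_lt h1),
          coeff_eq_zero_of_natDegree_lt ((natDegree_comp_lin _ _ _ (hdeg _)).trans_lt h1), add_zero]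
      · have h2 : N = e + 1 + 1 := by omega
        rw [h2]
        simp only [h, coeff_add]
        rw [coeff_comp_lin, eval_hasse_top _ _ (hdeg _), hlead, hlead]
        exact hω1 j
    have heq' : ∑ j, (h j).eval (s0 j) = 0 := by
      rw [← heq, ← Equiv.sum_comp σ, Fintype.sum_sum_type, ← Finset.sum_add_distrib]
      refine Finset.sum_congr rfl fun j _ => ?_
      simp only [h, eval_add, eval_comp, eval_mul, eval_C, eval_X, s0, t]
      congr 2
      ring
    have hL : adjoin k (Set.range θ ∪ Set.range c ∪ Set.range s) ≤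
        adjoin k (Set.range θ' ∪ Set.range c' ∪ Set.range s0) := by
      have h1 : L1 ≤ adjoin k (Set.range θ' ∪ Set.range c' ∪ Set.range s0) :=
        adjoin.mono _ _ _ Set.subset_union_left
      have h2 : ∀ j, s0 j ∈ adjoin k (Set.range θ' ∪ Set.range c' ∪ Set.range s0) :=
        fun j => subset_adjoin _ _ (Or.inr ⟨j, rfl⟩)
      rw [adjoin_le_iff]
      rintro x (hx | ⟨l, rfl⟩)
      · exact h1 (hL01 (subset_adjoin _ _ hx))
      · obtain ⟨(j | j), rfl⟩ := σ.surjective l
        · exact h2 j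
        · have h3 : s (σ (Sum.inr j)) = t j + ω j * s0 j := by
            simp only [t, s0]
            ring
          rw [h3]
          exact add_mem (h1 (htL j)) (mul_mem (h1 (hωL j)) (h2 j))
    refine Pure.mono hL (ih (by simp [κ']) θ' c' s0 h (fun j => hω2 j) hdeg' hlead' hhL heq' ?_)
    have h3 := htr.mono hL
    have h4 : Fintype.card (ι ⊕ (κ' ⊕ κ')) + 2 * Fintype.card κ' - 1 =
        Fintype.card ι + 2 * Fintype.card κ - 1 := by
      rw [Fintype.card_sum, hcard]
      have h5 : Fintype.card κ = 2 * Fintype.card κ' := by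
        rw [← hcard, Fintype.card_sum]
        ring
      omega
    rw [h4]
    exact h3

end Pool.Agent.T9h4.SH
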