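import Mathlib

/-!
Fields of large transcendence degree and purely transcendental fields inside a field `Ω`.
-/

set_option autoImplicit false

open IntermediateField Cardinal

namespace Pool.Agent.T9h4.SH

variable {k Ω : Type} [Field k] [Field Ω] [Algebra k Ω]

/-- the transcendence degree of `L` is at least `N` -/
def TR (L : IntermediateField k Ω) (N : ℕ) : Prop :=
  ∃ f : Fin N → Ω, AlgebraicIndependent k f ∧ ∀ i, f i ∈ L

/-- `L` is contained in a purely transcendental field -/
def Pure (L : IntermediateField k Ω) : Prop :=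
  ∃ (N : ℕ) (u : Fin N → Ω), AlgebraicIndependent k u ∧ L ≤ adjoin k (Set.range u)

theorem TR.mono {L L' : IntermediateField k Ω} (h : L ≤ L') {N : ℕ} (hL : TR L N) : TR L' N := by
  obtain ⟨f, hf, hfL⟩ := hL
  exact ⟨f, hf, fun i => h (hfL i)⟩

theorem Pure.mono {L L' : IntermediateField k Ω} (h : L ≤ L') (hL : Pure L') : Pure L := by
  obtain ⟨N, u, hu, huL⟩ := hL
  exact ⟨N, u, hu, h.trans huL⟩

theorem TR.le_trdeg {L : IntermediateField k Ω} {N : ℕ} (h : TR L N) :
    (N : Cardinal) ≤ Algebra.trdeg k L := by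
  obtain ⟨f, hf, hfL⟩ := h
  have h1 : AlgebraicIndependent k (fun i => (⟨f i, hfL i⟩ : L)) := by
    refine AlgebraicIndependent.of_comp L.val ?_
    exact hf
  have h2 := h1.cardinalMk_le_trdeg
  simpa using h2

theorem alg_adjoin {ι : Type} (f : ι → Ω) :
    Algebra.IsAlgebraic (Algebra.adjoin k (Set.range fun i =>
      (⟨f i, subset_adjoin _ _ ⟨i, rfl⟩⟩ : adjoin k (Set.range f)))) (adjoin k (Set.range f)) := by
  set L := adjoin k (Set.range f) with hL
  set x : ι → L := fun i => ⟨f i, subset_adjoin _ _ ⟨i, rfl⟩⟩ with hx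
  have hmap : (Algebra.adjoin k (Set.range x)).map L.val = Algebra.adjoin k (Set.range f) := by
    rw [AlgHom.map_adjoin, ← Set.range_comp]
    rfl
  constructor
  intro a
  obtain ⟨r, hr, s, hs, h1⟩ := mem_adjoin_iff_div.1 a.2
  rw [← hmap] at hr hs
  obtain ⟨r', hr', rfl⟩ := hr
  obtain ⟨s', hs', rfl⟩ := hs
  by_cases h0 : s' = 0
  · have h2 : a = 0 := by
      apply Subtype.ext
      rw [h1, h0]
      simp
    rw [h2]
    exact isAlgebraic_zero
  · refine ⟨Polynomial.C (⟨s', hs'⟩ : Algebra.adjoin k (Set.range x)) * Polynomial.X -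
      Polynomial.C (⟨r', hr'⟩ : Algebra.adjoin k (Set.range x)), ?_, ?_⟩
    · intro h3
      have h4 := congrArg (fun p => p.coeff 1) h3
      simp at h4
      exact h0 (congrArg Subtype.val h4)
    · have h5 : (a : Ω) * (s' : Ω) = (r' : Ω) := by
        have h6 : (s' : Ω) ≠ 0 := fun h => h0 (Subtype.ext h)
        have h7 : (a : Ω) = (r' : Ω) / (s' : Ω) := h1
        rw [h7, div_mul_cancel₀ _ h6]
      apply Subtype.ext
      simp only [map_sub, map_mul, Polynomial.aeval_C, Polynomial.aeval_X]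
      change (s' : Ω) * (a : Ω) - (r' : Ω) = 0
      rw [← h5]
      ring

theorem TR.le_card {ι : Type} [Fintype ι] (f : ι → Ω) {N : ℕ}
    (h : TR (adjoin k (Set.range f)) N) : N ≤ Fintype.card ι := by
  have h1 := alg_adjoin (k := k) f
  have h2 := Algebra.IsAlgebraic.trdeg_le_cardinalMk k (Set.range fun i =>
      (⟨f i, subset_adjoin _ _ ⟨i, rfl⟩⟩ : adjoin k (Set.range f)))
  have h3 := h.le_trdeg.trans (h2.trans mk_range_le)
  rw [mk_fintype] at h3
  exact_mod_cast h3

theorem TR.indep {ι : Type} [Fintype ι] (f : ι → Ω)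
    (h : TR (adjoin k (Set.range f)) (Fintype.card ι)) : AlgebraicIndependent k f := by
  have h1 := alg_adjoin (k := k) f
  have h2 := Algebra.IsAlgebraic.isTranscendenceBasis_of_le_trdeg_of_finite k
    (fun i => (⟨f i, subset_adjoin _ _ ⟨i, rfl⟩⟩ : adjoin k (Set.range f)))
    (by rw [mk_fintype]; exact h.le_trdeg)
  exact h2.1.map' (f := (adjoin k (Set.range f)).val) (adjoin k (Set.range f)).val.injective

theorem basis_of_trdeg {K : Type} [Field K] [Algebra k K] {w : ℕ} (h : Algebra.trdeg k K = w) :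
    ∃ t : Fin w → K, IsTranscendenceBasis k t := by
  obtain ⟨s, hs⟩ := exists_isTranscendenceBasis k K
  have h1 := hs.cardinalMk_eq_trdeg
  rw [h] at h1
  obtain ⟨φ⟩ : Nonempty (Fin w ≃ s) := by
    rw [← Cardinal.eq, Cardinal.mk_fin]
    exact h1.symm
  exact ⟨fun i => φ i, hs.comp_equiv φ⟩

end Pool.Agent.T9h4.SH
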